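import Pool.Agent.TH387.EX.Fin

set_option autoImplicit false

/-! The equivalence of Q1 of MP_8707bd_ag from the expected dimension. -/

namespace Pool.Agent.TH387.EX

open MvPolynomial

/-- the forms of degree `d` in the ideal `J` -/
noncomputable def part (J : Ideal (MvPolynomial (Fin 3) ℂ)) (d : ℕ) :
    Submodule ℂ (MvPolynomial (Fin 3) ℂ) :=
  homogeneousSubmodule (Fin 3) ℂ d ⊓ Submodule.restrictScalars ℂ J

/-- The homogeneous ideal of the point `(p 0 : p 1 : 1)`. -/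
noncomputable def pointIdeal (p : Fin 2 → ℂ) : Ideal (MvPolynomial (Fin 3) ℂ) :=
  Ideal.span ({X 0 - C (p 0) * X 2, X 1 - C (p 1) * X 2} : Set (MvPolynomial (Fin 3) ℂ))

/-- The ideal `I_Y ^ (m)` of the points `(Y i 0 : Y i 1 : 1)` with multiplicity `m`. -/
noncomputable def fat {r : ℕ} (Y : Fin r → Fin 2 → ℂ) (m : ℕ) : Ideal (MvPolynomial (Fin 3) ℂ) :=
  ⨅ i : Fin r, pointIdeal (Y i) ^ m

/-- The Hilbert function `H_{R/J}(d) = dim R_d - dim [J]_d`. -/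
noncomputable def hilb (J : Ideal (MvPolynomial (Fin 3) ℂ)) (d : ℕ) : ℕ :=
  Module.finrank ℂ ↥(homogeneousSubmodule (Fin 3) ℂ d) - Module.finrank ℂ ↥(part J d)

/-- `m Y` is `AH₂(d)`. -/
def IsAH {r : ℕ} (Y : Fin r → Fin 2 → ℂ) (m d : ℕ) : Prop :=
  hilb (fat Y m) d = min ((d + 2).choose 2) (r * (m + 1).choose 2)

/-- The form `F` is exceptional for `Y`: irreducible, of degree `e`, with multiplicity exactly `c i`
at `Y i`, `e ^ 2 - ∑ c i ^ 2 = -1` and `- 3 e + ∑ c i = -1`. -/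
def IsExceptional {r : ℕ} (Y : Fin r → Fin 2 → ℂ) (F : MvPolynomial (Fin 3) ℂ) : Prop :=
  Irreducible F ∧ ∃ (e : ℕ) (c : Fin r → ℕ), F.IsHomogeneous e ∧
    (∀ i, F ∈ pointIdeal (Y i) ^ c i ∧ F ∉ pointIdeal (Y i) ^ (c i + 1)) ∧
    (e : ℤ) ^ 2 - ∑ i, (c i : ℤ) ^ 2 = -1 ∧ -3 * (e : ℤ) + ∑ i, (c i : ℤ) = -1

/-- The equivalence of Q1 for the points `Y`, the multiplicity `m` and the degree `d`: if
`[I_Y ^ (m)]_d ≠ 0`, then `m Y` fails to be `AH₂(d)` if and only if some `F` exceptional for `Y` has a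
power `F ^ s`, `s ≥ 2`, dividing all elements of `[I_Y ^ (m)]_d`. -/
def Equivalence {r : ℕ} (Y : Fin r → Fin 2 → ℂ) (m d : ℕ) : Prop :=
  part (fat Y m) d ≠ ⊥ →
    (¬ IsAH Y m d ↔ ∃ F, IsExceptional Y F ∧ ∃ s : ℕ, 2 ≤ s ∧ ∀ G ∈ part (fat Y m) d, F ^ s ∣ G)

theorem part_eq {r : ℕ} (Y : Fin r → Fin 2 → ℂ) (m d : ℕ) :
    part (fat Y m) d = V Y d (fun _ => m) := rfl

theorem core {r : ℕ} (hr : 10 ≤ r) {m : ℕ} {S : Set ℕ}
    (h : ∃ F : MvPolynomial (Fin r × Fin 2) ℚ, F ≠ 0 ∧ ∀ P : Fin r → Fin 2 → ℂ,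
      MvPolynomial.aeval (fun ij : Fin r × Fin 2 => P ij.1 ij.2) F ≠ 0 →
      ∀ d ∈ S, Pool.Agent.H932R3.ExpDim ℂ (fun _ => m) P d) :
    ∃ Φ : MvPolynomial (Fin r × Fin 2) ℂ, Φ ≠ 0 ∧ ∀ Y : Fin r → Fin 2 → ℂ,
      MvPolynomial.eval (fun ij : Fin r × Fin 2 => Y ij.1 ij.2) Φ ≠ 0 →
      (∀ d ∈ S, IsAH Y m d ∧ Equivalence Y m d) ∧
      (∀ d, Equivalence Y m d ↔ IsAH Y m d) ∧
      ∀ d, part (fat Y m) d ≠ ⊥ → ∀ F, IsExceptional Y F → ∃ G ∈ part (fat Y m) d, ¬ F ∣ G := by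
  obtain ⟨F0, hF0, hF0'⟩ := h
  obtain ⟨g, hg, hg'⟩ := no_exceptional hr m
  refine ⟨F0.map (algebraMap ℚ ℂ) * g,
    mul_ne_zero (Pool.Agent.H932R3.map_ne_zero_of hF0) hg, fun Y hY => ?_⟩
  rw [map_mul] at hY
  have hY1 := left_ne_zero_of_mul hY
  have hY2 := right_ne_zero_of_mul hY
  rw [MvPolynomial.eval_map] at hY1
  have hno : ∀ d, part (fat Y m) d ≠ ⊥ → ∀ F, IsExceptional Y F →
      ∃ G ∈ part (fat Y m) d, ¬ F ∣ G := by
    intro d hd F hF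
    by_contra hcon
    push Not at hcon
    obtain ⟨hirr, e, c, hFe, hFc, h1, h2⟩ := hF
    obtain ⟨Q, hQ, hQ0⟩ := Submodule.exists_mem_ne_zero_of_ne_bot hd
    exact hg' Y hY2 d e c h1 h2 ⟨F, hirr, mem_V.2 ⟨hFe, fun i => (hFc i).1⟩,
      fun i => (hFc i).2, ⟨Q, hQ, hQ0⟩, hcon⟩
  have hAH : ∀ d ∈ S, IsAH Y m d := by
    intro d hd
    have h2 := hF0' Y hY1 d hd
    unfold Pool.Agent.H932R3.ExpDim at h2
    rw [Finset.sum_const, Finset.card_univ, Fintype.card_fin, smul_eq_mul] at h2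
    have h3 : Module.finrank ℂ ↥(part (fat Y m) d) =
      (d + 2).choose 2 - r * (m + 1).choose 2 := h2
    unfold IsAH hilb
    rw [h3, TH603.Sur.finrank_forms]
    omega
  have hright : ∀ d, part (fat Y m) d ≠ ⊥ → ¬ ∃ F, IsExceptional Y F ∧ ∃ s : ℕ, 2 ≤ s ∧
      ∀ G ∈ part (fat Y m) d, F ^ s ∣ G := by
    rintro d hd ⟨F, hF, s, hs, hdiv⟩
    obtain ⟨G, hG, hG'⟩ := hno d hd F hF
    exact hG' ((dvd_pow_self F (by omega)).trans (hdiv G hG))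
  have hbot : ∀ d, part (fat Y m) d = ⊥ → IsAH Y m d := by
    intro d hd
    have h4 : (d + 2).choose 2 ≤ r * (m + 1).choose 2 := by
      by_contra hcon
      obtain ⟨f, hf, hf0⟩ := exists_mem_V Y (d := d) (w := fun _ => m) (by
        rw [Finset.sum_const, Finset.card_univ, Fintype.card_fin, smul_eq_mul]
        omega)
      rw [← part_eq, hd, Submodule.mem_bot] at hf
      exact hf0 hf
    unfold IsAH hilb
    rw [hd, finrank_bot, TH603.Sur.finrank_forms]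
    omega
  refine ⟨fun d hd => ⟨hAH d hd, fun hne => ?_⟩, fun d => ⟨fun h => ?_, fun h hne => ?_⟩, hno⟩
  · exact ⟨fun h5 => absurd (hAH d hd) h5, fun h5 => absurd h5 (hright d hne)⟩
  · by_cases hd : part (fat Y m) d = ⊥
    · exact hbot d hd
    · by_contra hcon
      exact hright d hd ((h hd).1 hcon)
  · exact ⟨fun h5 => absurd h h5, fun h5 => absurd h5 (hright d hne)⟩

end Pool.Agent.TH387.EX
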