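import Pool.Agent.TH387.EX.Gen

set_option autoImplicit false

/-! Irreducible fixed components are rigid. -/

namespace Pool.Agent.TH387.EX

open MvPolynomial

variable {L : Type*} [Field L] {n : ℕ}

/-- the product with a form of the complementary class -/
theorem mul_mem_V {P : Fin n → Fin 2 → L} {d e : ℕ} {w c : Fin n → ℕ} (hed : e ≤ d)
    {G H : MvPolynomial (Fin 3) L} (hG : G ∈ V P e c) (hH : H ∈ V P (d - e) (fun i => w i - c i)) :
    G * H ∈ V P d w := by
  rw [mem_V] at hG hH ⊢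
  refine ⟨?_, fun i => ?_⟩
  · have := hG.1.mul hH.1
    rwa [Nat.add_sub_cancel' hed] at this
  · exact Ideal.pow_le_pow_right (by omega) (mul_mem' (hG.2 i) (hH.2 i))

/-- the quotient by a form with exact multiplicities -/
theorem quot_mem_V {P : Fin n → Fin 2 → L} {d e : ℕ} {w c : Fin n → ℕ}
    {F H : MvPolynomial (Fin 3) L} (hF : F.IsHomogeneous e) (hF0 : F ≠ 0)
    (hFx : ∀ i, F ∉ pt (P i 0) (P i 1) ^ (c i + 1)) (h : F * H ∈ V P d w) (hH0 : H ≠ 0) :
    e ≤ d ∧ H ∈ V P (d - e) (fun i => w i - c i) := by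
  rw [mem_V] at h
  obtain ⟨h1, h2⟩ := hom_of_mul hF hF0 hH0 h.1
  exact ⟨h1, mem_V.2 ⟨h2, fun i => quot_mem (hFx i) (h.2 i)⟩⟩

/-- if `F` with exact multiplicities divides all elements, so does every element of its class -/
theorem all_dvd {P : Fin n → Fin 2 → L} {d e : ℕ} {w c : Fin n → ℕ}
    {F G : MvPolynomial (Fin 3) L} (hF : F ∈ V P e c) (hF0 : F ≠ 0)
    (hFx : ∀ i, F ∉ pt (P i 0) (P i 1) ^ (c i + 1))
    (hdiv : ∀ Q ∈ V P d w, F ∣ Q) (hG : G ∈ V P e c) (hG0 : G ≠ 0) :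
    ∀ Q ∈ V P d w, G ∣ Q := by
  have hFh := (mem_V.1 hF).1
  let W : Submodule L (MvPolynomial (Fin 3) L) :=
    (V P d w).comap (LinearMap.mulLeft L F)
  have hW : ∀ H, H ∈ W ↔ F * H ∈ V P d w := fun H => Iff.rfl
  have hGW : ∀ H ∈ W, G * H ∈ V P d w := by
    intro H hH
    by_cases hH0 : H = 0
    · rw [hH0, mul_zero]; exact Submodule.zero_mem _
    · obtain ⟨h1, h2⟩ := quot_mem_V hFh hF0 hFx ((hW H).1 hH) hH0
      exact mul_mem_V h1 hG h2
  let μF : W →ₗ[L] V P d w := (LinearMap.mulLeft L F).restrict fun H hH => hH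
  let μG : W →ₗ[L] V P d w := (LinearMap.mulLeft L G).restrict fun H hH => hGW H hH
  have hμF : Function.Bijective μF := by
    constructor
    · intro a b hab
      have h1 : F * a.1 = F * b.1 := congrArg Subtype.val hab
      exact Subtype.ext (mul_left_cancel₀ hF0 h1)
    · rintro ⟨Q, hQ⟩
      obtain ⟨H, rfl⟩ := hdiv Q hQ
      exact ⟨⟨H, hQ⟩, rfl⟩
  have hμG : Function.Injective μG := by
    intro a b hab
    have h1 : G * a.1 = G * b.1 := congrArg Subtype.val hab
    exact Subtype.ext (mul_left_cancel₀ hG0 h1)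
  let eF := LinearEquiv.ofBijective μF hμF
  have hinj : Function.Injective (μG ∘ₗ eF.symm.toLinearMap) := by
    intro a b hab
    exact eF.symm.injective (hμG hab)
  have hsurj := LinearMap.injective_iff_surjective.1 hinj
  intro Q hQ
  obtain ⟨Q', hQ'⟩ := hsurj ⟨Q, hQ⟩
  exact ⟨(eF.symm Q').1, (congrArg Subtype.val hQ').symm⟩

/-- **Rigidity.** An irreducible `F` which divides all forms of a nonzero system divides every form
of its own class. -/
theorem dvd_of_mem [Infinite L] {P : Fin n → Fin 2 → L} {d e : ℕ} {w c : Fin n → ℕ}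
    {F G : MvPolynomial (Fin 3) L} (hF : F ∈ V P e c) (hirr : Irreducible F)
    (hFx : ∀ i, F ∉ pt (P i 0) (P i 1) ^ (c i + 1))
    (hdiv : ∀ Q ∈ V P d w, F ∣ Q) {Q : MvPolynomial (Fin 3) L} (hQ : Q ∈ V P d w) (hQ0 : Q ≠ 0)
    (hG : G ∈ V P e c) : F ∣ G := by
  classical
  by_contra hFG
  have hF0 := hirr.ne_zero
  have hG0 : G ≠ 0 := fun h => hFG (h ▸ dvd_zero F)
  have hFh := (mem_V.1 hF).1
  have hprime : Prime F := UniqueFactorizationMonoid.irreducible_iff_prime.1 hirr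
  -- the degree of `F`
  have he : 1 ≤ e := by
    by_contra hcon
    have he0 : e = 0 := by omega
    rw [he0] at hFh
    have h1 : F.totalDegree = 0 := Nat.le_zero.1 hFh.totalDegree_le
    rw [totalDegree_eq_zero_iff_eq_C] at h1
    apply hirr.not_isUnit
    rw [h1]
    apply IsUnit.map
    rw [isUnit_iff_ne_zero]
    intro h0
    rw [h0, C_0] at h1
    exact hF0 h1
  -- the pencil
  have hA : ∀ t : L, F + C t * G ∈ V P e c := fun t =>
    Submodule.add_mem _ hF (by rw [← smul_eq_C_mul]; exact Submodule.smul_mem _ _ hG)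
  have hA0 : ∀ t : L, F + C t * G ≠ 0 := by
    intro t h0
    by_cases ht : t = 0
    · rw [ht, C_0, zero_mul, add_zero] at h0
      exact hF0 h0
    · apply hFG
      have h1 : C t * G = -F := by rw [← add_eq_zero_iff_eq_neg]; rw [add_comm]; exact h0
      have h2 : G = C t⁻¹ * (-F) := by
        rw [← h1, ← mul_assoc, ← C_mul, inv_mul_cancel₀ ht, C_1, one_mul]
      rw [h2]
      exact ((dvd_refl F).neg_right).mul_left _
  have hAdiv : ∀ t : L, F + C t * G ∣ Q := fun t =>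
    all_dvd hF hF0 hFx hdiv (hA t) (hA0 t) Q hQ
  have hcop : ∀ s t : L, s ≠ t → IsRelPrime (F + C s * G) (F + C t * G) := by
    intro s t hst z hz1 hz2
    have h1 : z ∣ C (t - s) * F := by
      have : C (t - s) * F = C t * (F + C s * G) - C s * (F + C t * G) := by
        rw [C_sub]; ring
      rw [this]
      exact dvd_sub (hz1.mul_left _) (hz2.mul_left _)
    have h2 : z ∣ C (s - t) * G := by
      have : C (s - t) * G = (F + C s * G) - (F + C t * G) := by
        rw [C_sub]; ring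
      rw [this]
      exact dvd_sub hz1 hz2
    have hun : ∀ x : L, x ≠ 0 → IsUnit (C x : MvPolynomial (Fin 3) L) := fun x hx =>
      (isUnit_iff_ne_zero.2 hx).map C
    have h3 : z ∣ F := (hun _ (sub_ne_zero.2 (Ne.symm hst))).dvd_mul_left.1 h1
    have h4 : z ∣ G := (hun _ (sub_ne_zero.2 hst)).dvd_mul_left.1 h2
    rcases hirr.dvd_iff.1 h3 with h5 | h5
    · exact h5
    · exact absurd ((h5.dvd).trans h4) hFG
  -- too many coprime divisors
  obtain ⟨S, hS⟩ := Infinite.exists_subset_card_eq L (d + 1)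
  have h1 : ∏ t ∈ S, (F + C t * G) ∣ Q :=
    Finset.prod_dvd_of_isRelPrime (fun s _ t _ hst => hcop s t hst) fun t _ => hAdiv t
  have h2 : (∏ t ∈ S, (F + C t * G)).IsHomogeneous (∑ t ∈ S, e) :=
    IsHomogeneous.prod _ _ _ fun t _ => (mem_V.1 (hA t)).1
  have h3 : ∏ t ∈ S, (F + C t * G) ≠ 0 := Finset.prod_ne_zero_iff.2 fun t _ => hA0 t
  obtain ⟨H, hH⟩ := h1
  have hH0 : H ≠ 0 := by
    rintro rfl
    rw [mul_zero] at hH
    exact hQ0 hH
  have h4 := (hom_of_mul h2 h3 hH0 (by rw [← hH]; exact (mem_V.1 hQ).1)).1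
  rw [Finset.sum_const, hS, smul_eq_mul] at h4
  nlinarith

/-- two forms of the same degree, one dividing the other -/
theorem eq_smul_of_dvd {F G : MvPolynomial (Fin 3) L} {e : ℕ} (hF : F.IsHomogeneous e)
    (hG : G.IsHomogeneous e) (hG0 : G ≠ 0) (h : F ∣ G) : ∃ a : L, a ≠ 0 ∧ G = C a * F := by
  obtain ⟨H, hH⟩ := h
  have hF0 : F ≠ 0 := by rintro rfl; rw [zero_mul] at hH; exact hG0 hH
  have hH0 : H ≠ 0 := by rintro rfl; rw [mul_zero] at hH; exact hG0 hH
  obtain ⟨_, h1⟩ := hom_of_mul hF hF0 hH0 (by rw [← hH]; exact hG)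
  rw [Nat.sub_self] at h1
  have h2 : H.totalDegree = 0 := Nat.le_zero.1 h1.totalDegree_le
  rw [totalDegree_eq_zero_iff_eq_C] at h2
  refine ⟨coeff 0 H, ?_, ?_⟩
  · intro h0
    rw [h0, C_0] at h2
    exact hH0 h2
  · rw [hH]
    conv_lhs => rw [h2]
    ring

end Pool.Agent.TH387.EX
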