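import Pool.Agent.TH387.EX.Main

set_option autoImplicit false
set_option maxHeartbeats 400000

/-! No exceptional form divides all forms of a uniform class at `n ≥ 10` general points: all
degrees and all exceptional classes at once. -/

namespace Pool.Agent.TH387.EX

open MvPolynomial

variable {n : ℕ}

theorem X_dvd {F : MvPolynomial (Fin 3) ℂ} {e : ℕ} (hirr : Irreducible F)
    (hF : F.IsHomogeneous e) (he : 1 ≤ e) (h0 : F ∣ X 0) (h1 : F ∣ X 1) : False := by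
  have hX : ∀ i : Fin 3, F ∣ X i → ∃ a : ℂ, a ≠ 0 ∧ (X i : MvPolynomial (Fin 3) ℂ) = C a * F := by
    intro i hi
    obtain ⟨H, hH⟩ := hi
    have hXi : (X i : MvPolynomial (Fin 3) ℂ) ≠ 0 := X_ne_zero i
    have hH0 : H ≠ 0 := by rintro rfl; rw [mul_zero] at hH; exact hXi hH
    have h3 := (hom_of_mul hF hirr.ne_zero hH0 (hH ▸ isHomogeneous_X ℂ i)).1
    have he1 : e = 1 := by omega
    rw [he1] at hF
    exact eq_smul_of_dvd hF (isHomogeneous_X ℂ i) hXi ⟨H, hH⟩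
  obtain ⟨a, ha, ha'⟩ := hX 0 h0
  obtain ⟨b, hb, hb'⟩ := hX 1 h1
  have h2 : C b * (X 0 : MvPolynomial (Fin 3) ℂ) = C a * X 1 := by
    rw [ha', hb']; ring
  have h3 := congrArg (coeff (Finsupp.single 0 1)) h2
  have e3 : coeff (Finsupp.single (0 : Fin 3) 1) (X 1 : MvPolynomial (Fin 3) ℂ) = 0 := by
    rw [coeff_X', if_neg]
    intro h
    have := DFunLike.congr_fun h 0
    simp at this
  have e4 : coeff (Finsupp.single (0 : Fin 3) 1) (X 0 : MvPolynomial (Fin 3) ℂ) = 1 := by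
    rw [coeff_X', if_pos rfl]
  rw [coeff_C_mul, coeff_C_mul, e3, e4, mul_one, mul_zero] at h3
  exact hb h3

/-- divisibility of all forms passes to smaller degrees -/
theorem descend {Y : Fin n → Fin 2 → ℂ} {d D e : ℕ} {w : Fin n → ℕ} (hD : D ≤ d)
    {F : MvPolynomial (Fin 3) ℂ} (hirr : Irreducible F) (hF : F.IsHomogeneous e) (he : 1 ≤ e)
    (hdiv : ∀ Q ∈ V Y d w, F ∣ Q) : ∀ Q ∈ V Y D w, F ∣ Q := by
  intro Q hQ
  by_contra hcon
  have hprime : Prime F := UniqueFactorizationMonoid.irreducible_iff_prime.1 hirr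
  have hX : ∀ i : Fin 3, F ∣ X i := by
    intro i
    have h1 : X i ^ (d - D) * Q ∈ V Y d w := by
      rw [mem_V] at hQ ⊢
      refine ⟨?_, fun j => Ideal.mul_mem_left _ _ (hQ.2 j)⟩
      have h2 := (isHomogeneous_X_pow (R := ℂ) i (d - D)).mul hQ.1
      rwa [Nat.sub_add_cancel hD] at h2
    rcases hprime.dvd_or_dvd (hdiv _ h1) with h3 | h3
    · exact hprime.dvd_of_dvd_pow h3
    · exact absurd h3 hcon
  exact X_dvd hirr hF he (hX 0) (hX 1)

/-- **No exceptional component.** For `n ≥ 10` general points no exceptional form divides all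
forms of degree `d` with multiplicity at least `m` at the points, when there is a nonzero one. -/
theorem no_exceptional (hn : 10 ≤ n) (m : ℕ) :
    ∃ g : R n, g ≠ 0 ∧ ∀ Y : Fin n → Fin 2 → ℂ, ev Y g ≠ 0 → ∀ (d e : ℕ) (c : Fin n → ℕ),
      (e : ℤ) ^ 2 - ∑ i, (c i : ℤ) ^ 2 = -1 → -3 * (e : ℤ) + ∑ i, (c i : ℤ) = -1 →
      ¬ Bad Y d m e c := by
  classical
  have e1 : ∀ k : ℕ, 2 * (k + 1).choose 2 = k * k + k := by
    intro k
    rw [Nat.choose_two_right]
    have h2 : 2 ∣ (k + 1) * (k + 1 - 1) := by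
      rw [Nat.add_sub_cancel]
      exact (Nat.even_mul_succ_self k).two_dvd.trans (by rw [mul_comm])
    rw [Nat.mul_div_cancel' h2, Nat.add_sub_cancel]
    ring
  have hex : ∃ d, n * (m + 1).choose 2 < (d + 2).choose 2 := by
    refine ⟨2 * (n * (m + 1).choose 2), ?_⟩
    have h1 := e1 (2 * (n * (m + 1).choose 2) + 1)
    nlinarith
  obtain ⟨D, hD⟩ : ∃ D, D = Nat.find hex := ⟨_, rfl⟩
  have hDspec : n * (m + 1).choose 2 < (D + 2).choose 2 := by rw [hD]; exact Nat.find_spec hex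
  have hnR : (10 : ℝ) ≤ n := by exact_mod_cast hn
  have hs0 : 0 ≤ √(n : ℝ) := Real.sqrt_nonneg _
  have hss : √(n : ℝ) * √(n : ℝ) = n := Real.mul_self_sqrt (by linarith)
  have hs1 : 1 ≤ √(n : ℝ) := Real.one_le_sqrt.2 (by linarith)
  -- the bound for the degrees
  have hbound : ∀ d, d ≤ D → √(n : ℝ) * d ≤ n * m + (n - √(n : ℝ)) / 2 := by
    intro d hd
    have hdD : (d : ℝ) ≤ D := by exact_mod_cast hd
    have h1 : √(n : ℝ) * D ≤ n * m + (n - √(n : ℝ)) / 2 := by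
      rcases Nat.eq_zero_or_pos D with h0 | h0
      · rw [h0]
        have : √(n : ℝ) ≤ n := by nlinarith
        have h2 : (0 : ℝ) ≤ n * m := by positivity
        simp only [Nat.cast_zero, mul_zero]
        linarith
      · obtain ⟨k, hk⟩ : ∃ k, D = k + 1 := ⟨D - 1, by omega⟩
        have h2 : ¬ n * (m + 1).choose 2 < (k + 2).choose 2 :=
          Nat.find_min hex (by rw [← hD]; omega)
        rw [not_lt] at h2
        have h3 := e1 (k + 1)
        have h4 := e1 m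
        have h5 : (k + 1) * (k + 1) + (k + 1) ≤ n * (m * m + m) := by
          rw [← h3, ← h4]
          calc 2 * (k + 1 + 1).choose 2 ≤ 2 * (n * (m + 1).choose 2) :=
                Nat.mul_le_mul_left _ h2
            _ = _ := by ring
        have h6 : (D : ℝ) * D + D ≤ n * (m * m + m) := by
          rw [hk]
          exact_mod_cast h5
        have h7 : (2 * (D : ℝ) + 1) ≤ √(n : ℝ) * (2 * m + 1) := by
          apply le_of_sq_le_sq _ (by positivity)
          have : (√(n : ℝ) * (2 * m + 1)) ^ 2 = n * (2 * m + 1) ^ 2 := by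
            rw [mul_pow, sq (√(n : ℝ)), hss]
          rw [this]
          nlinarith
        have h8 := mul_le_mul_of_nonneg_left h7 hs0
        rw [← mul_assoc, hss] at h8
        linarith
    exact (mul_le_mul_of_nonneg_left hdD hs0).trans h1
  -- the polynomial of one class
  have hcl : ∀ p : Fin (D + 1) × Fin (D + 1) × (Fin n → Fin (D + 1)),
      ∃ g : R n, g ≠ 0 ∧ ∀ Y : Fin n → Fin 2 → ℂ, ev Y g ≠ 0 →
        (p.2.1 : ℤ) ^ 2 - ∑ i, ((p.2.2 i : ℕ) : ℤ) ^ 2 = -1 →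
        -3 * (p.2.1 : ℤ) + ∑ i, ((p.2.2 i : ℕ) : ℤ) = -1 →
        ¬ Bad Y p.1 m p.2.1 (fun i => p.2.2 i) := by
    intro p
    by_cases h : (p.2.1 : ℤ) ^ 2 - ∑ i, ((p.2.2 i : ℕ) : ℤ) ^ 2 = -1 ∧
        -3 * (p.2.1 : ℤ) + ∑ i, ((p.2.2 i : ℕ) : ℤ) = -1
    · obtain ⟨g, hg, hg'⟩ := class_open (m := m) hn (hbound p.1 (Nat.lt_succ_iff.1 p.1.2)) h.1 h.2
      exact ⟨g, hg, fun Y hY _ _ => hg' Y hY⟩
    · exact ⟨1, one_ne_zero, fun Y _ h1 h2 => absurd ⟨h1, h2⟩ h⟩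
  choose g hg hg' using hcl
  refine ⟨∏ p, g p, Finset.prod_ne_zero_iff.2 fun p _ => hg p, fun Y hY d e c h1 h2 => ?_⟩
  rintro ⟨F, hirr, hF, hFx, ⟨Q, hQ, hQ0⟩, hdiv⟩
  rw [map_prod, Finset.prod_ne_zero_iff] at hY
  obtain ⟨he, -⟩ := num h1 h2
  -- reduction to degree at most `D`
  obtain ⟨d', hd', hQ', hdiv'⟩ : ∃ d', d' ≤ D ∧ (∃ Q ∈ V Y d' (fun _ => m), Q ≠ 0) ∧
      ∀ Q ∈ V Y d' (fun _ => m), F ∣ Q := by
    rcases le_total d D with h | h
    · exact ⟨d, h, ⟨Q, hQ, hQ0⟩, hdiv⟩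
    · refine ⟨D, le_rfl, ?_, descend h hirr (mem_V.1 hF).1 he hdiv⟩
      exact exists_mem_V Y (by
        rw [Finset.sum_const, Finset.card_univ, Fintype.card_fin, smul_eq_mul]
        exact hDspec)
  have hed : e ≤ d' := by
    obtain ⟨Q, hQ, hQ0⟩ := hQ'
    obtain ⟨H, hH⟩ := hdiv' Q hQ
    have hH0 : H ≠ 0 := by rintro rfl; rw [mul_zero] at hH; exact hQ0 hH
    exact (hom_of_mul (mem_V.1 hF).1 hirr.ne_zero hH0 (hH ▸ (mem_V.1 hQ).1)).1
  have hce : ∀ i, c i ≤ e := by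
    intro i
    by_contra hcon
    have h3 : (e : ℤ) + 1 ≤ c i := by omega
    have h4 : (c i : ℤ) ^ 2 ≤ ∑ i, (c i : ℤ) ^ 2 :=
      Finset.single_le_sum (fun j _ => sq_nonneg (c j : ℤ)) (Finset.mem_univ i)
    have h5 : (1 : ℤ) ≤ e := by exact_mod_cast he
    nlinarith
  have h3 := hg' (⟨d', by omega⟩, ⟨e, by omega⟩, fun i => ⟨c i, by have := hce i; omega⟩) Y
    (hY _ (Finset.mem_univ _)) h1 h2
  exact h3 ⟨F, hirr, hF, hFx, hQ', hdiv'⟩

end Pool.Agent.TH387.EX
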