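import Pool.Agent.TH387.EX.Div
import Pool.Agent.TH387.SH.Two

set_option autoImplicit false
set_option maxHeartbeats 400000

/-! Exceptional forms at the generic points do not divide all forms of a uniform class. -/

namespace Pool.Agent.TH387.EX

open MvPolynomial

variable {n : ℕ}

/-- the permutation of the points, on the polynomial ring of the coefficients -/
noncomputable def ren (σ : Equiv.Perm (Fin n)) : R n ≃+* R n :=
  (renameEquiv ℂ (Equiv.prodCongr σ (Equiv.refl (Fin 2)))).toRingEquiv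

theorem ren_gp (σ : Equiv.Perm (Fin n)) (i : Fin n) (j : Fin 2) :
    ren σ (gp n i j) = gp n (σ i) j := by
  simp [ren, gp]

theorem ren_ren {σ : Equiv.Perm (Fin n)} (hσ : ∀ i, σ (σ i) = i) (x : R n) :
    ren σ (ren σ x) = x := by
  have h : (ren σ : R n →+* R n).comp (ren σ : R n →+* R n) = RingHom.id (R n) := by
    refine MvPolynomial.ringHom_ext (fun r => ?_) (fun i => ?_)
    · simp [ren]
    · obtain ⟨a, b⟩ := i
      simp [ren, hσ]
  exact DFunLike.congr_fun h x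

/-- the automorphism of the field -/
noncomputable def th (σ : Equiv.Perm (Fin n)) : K n ≃+* K n :=
  IsFractionRing.ringEquivOfRingEquiv (ren σ)

theorem th_alg (σ : Equiv.Perm (Fin n)) (x : R n) :
    th σ (algebraMap (R n) (K n) x) = algebraMap (R n) (K n) (ren σ x) :=
  IsFractionRing.ringEquivOfRingEquiv_algebraMap _ _

theorem th_gK (σ : Equiv.Perm (Fin n)) (i : Fin n) (j : Fin 2) :
    th σ (gK n i j) = gK n (σ i) j := by
  unfold gK
  rw [th_alg, ren_gp]

theorem th_th {σ : Equiv.Perm (Fin n)} (hσ : ∀ i, σ (σ i) = i) (x : K n) :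
    th σ (th σ x) = x := by
  have h : (th σ : K n →+* K n).comp (th σ : K n →+* K n) = RingHom.id (K n) := by
    refine IsLocalization.ringHom_ext (nonZeroDivisors (R n)) (RingHom.ext fun y => ?_)
    simp only [RingHom.comp_apply, RingHom.id_apply, RingHom.coe_coe]
    rw [th_alg, th_alg, ren_ren hσ]
  exact DFunLike.congr_fun h x

/-- the conjugate form -/
noncomputable def cj (σ : Equiv.Perm (Fin n)) (f : MvPolynomial (Fin 3) (K n)) :
    MvPolynomial (Fin 3) (K n) := mapEquiv (Fin 3) (th σ) f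

theorem cj_eq (σ : Equiv.Perm (Fin n)) (f : MvPolynomial (Fin 3) (K n)) :
    cj σ f = map (th σ : K n →+* K n) f := rfl

theorem cj_cj {σ : Equiv.Perm (Fin n)} (hσ : ∀ i, σ (σ i) = i) (f : MvPolynomial (Fin 3) (K n)) :
    cj σ (cj σ f) = f := by
  rw [cj_eq, cj_eq, map_map]
  have : (th σ : K n →+* K n).comp (th σ : K n →+* K n) = RingHom.id (K n) := by
    ext1 x
    exact th_th hσ x
  rw [this, map_id]

theorem cj_pt {σ : Equiv.Perm (Fin n)} {i : Fin n} {c : ℕ} {f : MvPolynomial (Fin 3) (K n)} :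
    cj σ f ∈ pt (gK n (σ i) 0) (gK n (σ i) 1) ^ c ↔ f ∈ pt (gK n i 0) (gK n i 1) ^ c := by
  have h := mem_map_iff (th σ : K n →+* K n) (th σ).injective (a := gK n i 0) (b := gK n i 1)
    (c := c) (f := f)
  simp only [RingHom.coe_coe, th_gK] at h
  exact h

theorem cj_pt' {σ : Equiv.Perm (Fin n)} (hσ : ∀ i, σ (σ i) = i) {i : Fin n} {c : ℕ}
    {f : MvPolynomial (Fin 3) (K n)} :
    cj σ f ∈ pt (gK n i 0) (gK n i 1) ^ c ↔ f ∈ pt (gK n (σ i) 0) (gK n (σ i) 1) ^ c := by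
  have h := cj_pt (σ := σ) (i := σ i) (c := c) (f := f)
  rwa [hσ] at h

theorem cj_V {σ : Equiv.Perm (Fin n)} (hσ : ∀ i, σ (σ i) = i) {d : ℕ} {w : Fin n → ℕ}
    {f : MvPolynomial (Fin 3) (K n)} (hf : f ∈ V (gK n) d w) :
    cj σ f ∈ V (gK n) d (fun i => w (σ i)) := by
  rw [mem_V] at hf ⊢
  exact ⟨hf.1.map _, fun i => (cj_pt' hσ).2 (hf.2 (σ i))⟩

theorem cj_irr {σ : Equiv.Perm (Fin n)} {f : MvPolynomial (Fin 3) (K n)} (hf : Irreducible f) :
    Irreducible (cj σ f) :=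
  (MulEquiv.irreducible_iff (mapEquiv (Fin 3) (th σ))).2 hf

theorem cj_dvd {σ : Equiv.Perm (Fin n)} {f g : MvPolynomial (Fin 3) (K n)} (h : f ∣ g) :
    cj σ f ∣ cj σ g := map_dvd (mapEquiv (Fin 3) (th σ)) h

/-- products of forms with exact multiplicities -/
theorem prod_quot {L : Type*} [Field L] {P : Fin n → Fin 2 → L} {ι : Type*} [DecidableEq ι]
    (S : Finset ι) (G : ι → MvPolynomial (Fin 3) L) (e : ℕ) (γ : ι → Fin n → ℕ)
    (hG : ∀ j ∈ S, (G j).IsHomogeneous e) (hG0 : ∀ j ∈ S, G j ≠ 0)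
    (hGx : ∀ j ∈ S, ∀ i, G j ∉ pt (P i 0) (P i 1) ^ (γ j i + 1)) :
    ∀ {d : ℕ} {w : Fin n → ℕ} {H : MvPolynomial (Fin 3) L}, H ≠ 0 →
      (∏ j ∈ S, G j) * H ∈ V P d w →
      S.card * e ≤ d ∧ H ∈ V P (d - S.card * e) (fun i => w i - ∑ j ∈ S, γ j i) := by
  induction S using Finset.induction_on with
  | empty =>
    intro d w H _ h
    rw [Finset.prod_empty, one_mul] at h
    simpa using h
  | insert a S ha ih =>
    intro d w H hH h
    rw [Finset.prod_insert ha, mul_assoc] at h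
    have hne : (∏ j ∈ S, G j) * H ≠ 0 :=
      mul_ne_zero (Finset.prod_ne_zero_iff.2 fun j hj => hG0 j (Finset.mem_insert_of_mem hj)) hH
    obtain ⟨h1, h2⟩ := quot_mem_V (hG a (Finset.mem_insert_self _ _))
      (hG0 a (Finset.mem_insert_self _ _)) (hGx a (Finset.mem_insert_self _ _)) h hne
    obtain ⟨h3, h4⟩ := ih (fun j hj => hG j (Finset.mem_insert_of_mem hj))
      (fun j hj => hG0 j (Finset.mem_insert_of_mem hj))
      (fun j hj => hGx j (Finset.mem_insert_of_mem hj)) hH h2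
    rw [Finset.card_insert_of_notMem ha, add_mul, one_mul]
    refine ⟨by omega, ?_⟩
    have e1 : d - (S.card * e + e) = d - e - S.card * e := by omega
    have e2 : (fun i => w i - ∑ j ∈ insert a S, γ j i) =
        fun i => w i - γ a i - ∑ j ∈ S, γ j i := by
      funext i
      rw [Finset.sum_insert ha]
      omega
    rw [e1, e2]
    exact h4

theorem exact_unique {A : Type*} [CommRing A] {I : Ideal A} {f : A} {a b : ℕ} (h1 : f ∈ I ^ a)
    (h2 : f ∉ I ^ (a + 1)) (h3 : f ∈ I ^ b) (h4 : f ∉ I ^ (b + 1)) : a = b := by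
  rcases lt_trichotomy a b with h | h | h
  · exact absurd (Ideal.pow_le_pow_right h h3) h2
  · exact h
  · exact absurd (Ideal.pow_le_pow_right h h1) h4

theorem aeval_gK [Algebra ℚ (K n)] (F : MvPolynomial (Fin n × Fin 2) ℚ) :
    aeval (R := ℚ) (fun ij : Fin n × Fin 2 => gK n ij.1 ij.2) F =
      algebraMap (R n) (K n) (map (algebraMap ℚ ℂ) F) := by
  have h : (aeval (R := ℚ) (fun ij : Fin n × Fin 2 => gK n ij.1 ij.2) :
      MvPolynomial (Fin n × Fin 2) ℚ →ₐ[ℚ] K n).toRingHom =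
      (algebraMap (R n) (K n)).comp (map (algebraMap ℚ ℂ)) := by
    refine MvPolynomial.ringHom_ext (fun r => ?_) (fun i => ?_)
    · exact DFunLike.congr_fun (Subsingleton.elim
        (((aeval (R := ℚ) (fun ij : Fin n × Fin 2 => gK n ij.1 ij.2) :
          MvPolynomial (Fin n × Fin 2) ℚ →ₐ[ℚ] K n).toRingHom).comp C)
        (((algebraMap (R n) (K n)).comp (map (algebraMap ℚ ℂ))).comp C)) r
    · simp [gK, gp]
  exact DFunLike.congr_fun h F

theorem choose_le {d : ℕ} {w : Fin n → ℕ} (hn : 10 ≤ n) (h : √(n : ℝ) * d < ∑ i, (w i : ℝ)) :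
    (d + 2).choose 2 ≤ ∑ i, (w i + 1).choose 2 := by
  have hnR : (10 : ℝ) ≤ n := by exact_mod_cast hn
  have hs3 : 3 < √(n : ℝ) := Real.lt_sqrt_of_sq_lt (by norm_num; linarith)
  have hss : √(n : ℝ) * √(n : ℝ) = n := Real.mul_self_sqrt (by linarith)
  have hd0 : (0 : ℝ) ≤ d := Nat.cast_nonneg d
  have e1 : ∀ k : ℕ, 2 * (k + 1).choose 2 = k * k + k := by
    intro k
    have := Nat.triangle_succ k
    rw [Nat.choose_two_right]
    have h2 : 2 ∣ (k + 1) * (k + 1 - 1) := by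
      rw [Nat.add_sub_cancel]
      exact (Nat.even_mul_succ_self k).two_dvd.trans (by rw [mul_comm])
    rw [Nat.mul_div_cancel' h2, Nat.add_sub_cancel]
    ring
  have hW : 3 * d + 1 ≤ ∑ i, w i := by
    have h1 : (3 : ℝ) * d < ((∑ i, w i : ℕ) : ℝ) ∨ d = 0 := by
      rcases Nat.eq_zero_or_pos d with h0 | h0
      · right; exact h0
      · left
        push_cast
        have : (0 : ℝ) < d := by exact_mod_cast h0
        nlinarith
    rcases h1 with h1 | h1
    · have : 3 * d < ∑ i, w i := by exact_mod_cast h1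
      omega
    · rw [h1] at h ⊢
      have : (0 : ℝ) < ((∑ i, w i : ℕ) : ℝ) := by push_cast; simpa using h
      have : 0 < ∑ i, w i := by exact_mod_cast this
      omega
  have hW2 : d * d + 1 ≤ ∑ i, w i * w i := by
    have h1 : (∑ i, (w i : ℝ)) ^ 2 ≤ n * ∑ i, (w i : ℝ) ^ 2 := by
      have := sq_sum_le_card_mul_sum_sq (s := (Finset.univ : Finset (Fin n)))
        (f := fun i => (w i : ℝ))
      rwa [Finset.card_univ, Fintype.card_fin] at this
    have h2 : (n : ℝ) * (d * d) < (∑ i, (w i : ℝ)) ^ 2 := by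
      have h3 : 0 ≤ √(n : ℝ) * d := by positivity
      calc (n : ℝ) * (d * d) = (√(n : ℝ) * √(n : ℝ)) * (d * d) := by rw [hss]
        _ = (√(n : ℝ) * d) ^ 2 := by ring
        _ < _ := pow_lt_pow_left₀ h h3 (by norm_num)
    have h4 : (d * d : ℝ) < ((∑ i, w i * w i : ℕ) : ℝ) := by
      push_cast
      have h5 : (n : ℝ) * (d * d) < n * ∑ i, (w i : ℝ) ^ 2 := lt_of_lt_of_le h2 h1
      have h6 := lt_of_mul_lt_mul_left h5 (by linarith)
      simpa [sq] using h6
    have : d * d < ∑ i, w i * w i := by exact_mod_cast h4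
    omega
  have h7 : 2 * (d + 2).choose 2 = (d + 1) * (d + 1) + (d + 1) := e1 (d + 1)
  have h8 : 2 * ∑ i, (w i + 1).choose 2 = ∑ i, w i * w i + ∑ i, w i := by
    rw [Finset.mul_sum, ← Finset.sum_add_distrib]
    exact Finset.sum_congr rfl fun i _ => e1 (w i)
  nlinarith

/-- Nagata's inequality at the generic points -/
theorem V_eq_bot {d : ℕ} {w : Fin n → ℕ} (hn : 10 ≤ n)
    (h : √(n : ℝ) * d < ∑ i, (w i : ℝ)) : V (gK n) d w = ⊥ := by
  obtain ⟨F, hF, hF'⟩ := Pool.Agent.TH387.SH.expDim_all hn w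
  have h1 := hF' (gK n) (by
    rw [aeval_gK]
    intro h0
    rw [← map_zero (algebraMap (R n) (K n))] at h0
    exact hF (map_injective _ (algebraMap ℚ ℂ).injective (by rw [inj n h0, map_zero]))) d
    (Or.inl h)
  have h2 : Module.finrank (K n) ↥(V (gK n) d w) = 0 := by
    have h3 : Module.finrank (K n) ↥(V (gK n) d w) =
      (d + 2).choose 2 - ∑ i, (w i + 1).choose 2 := h1
    rw [h3]
    exact Nat.sub_eq_zero_of_le (choose_le hn h)
  exact Submodule.finrank_eq_zero.1 h2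

attribute [local irreducible] V

/-- the indices with the largest multiplicity of an exceptional class -/
theorem card_max {e : ℕ} {c : Fin n → ℕ} (i0 : Fin n) (hi0 : ∀ i, c i ≤ c i0)
    (h1 : (e : ℤ) ^ 2 - ∑ i, (c i : ℤ) ^ 2 = -1) (h2 : -3 * (e : ℤ) + ∑ i, (c i : ℤ) = -1) :
    (Finset.univ.filter fun i => c i = c i0).card ≤ 8 := by
  obtain ⟨M, hM⟩ : ∃ M : ℤ, M = c i0 := ⟨_, rfl⟩
  have hM0 : 0 ≤ M := by rw [hM]; exact Int.natCast_nonneg _
  have h3 : ∑ i, (c i : ℤ) ^ 2 ≤ M * ∑ i, (c i : ℤ) := by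
    rw [Finset.mul_sum]
    refine Finset.sum_le_sum fun i _ => ?_
    have h4 : (c i : ℤ) ≤ M := by rw [hM]; exact_mod_cast hi0 i
    have h5 : (0 : ℤ) ≤ c i := Int.natCast_nonneg _
    nlinarith
  have h4 : ((Finset.univ.filter fun i => c i = c i0).card : ℤ) * M ≤ ∑ i, (c i : ℤ) := by
    calc ((Finset.univ.filter fun i => c i = c i0).card : ℤ) * M
        = ∑ i ∈ Finset.univ.filter (fun i => c i = c i0), M := by
          rw [Finset.sum_const, nsmul_eq_mul]
      _ = ∑ i ∈ Finset.univ.filter (fun i => c i = c i0), (c i : ℤ) := by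
          refine Finset.sum_congr rfl fun i hi => ?_
          rw [hM, (Finset.mem_filter.1 hi).2]
      _ ≤ _ := Finset.sum_le_sum_of_subset_of_nonneg (Finset.filter_subset _ _)
          fun i _ _ => Int.natCast_nonneg _
  by_contra hcon
  have h5 : (9 : ℤ) ≤ (Finset.univ.filter fun i => c i = c i0).card := by
    have : 9 ≤ (Finset.univ.filter fun i => c i = c i0).card := by omega
    exact_mod_cast this
  have h6 : ∑ i, (c i : ℤ) = 3 * e - 1 := by linarith
  have h7 : ∑ i, (c i : ℤ) ^ 2 = e ^ 2 + 1 := by linarith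
  rw [h6] at h3 h4
  rw [h7] at h3
  have he : (0 : ℤ) ≤ e := Int.natCast_nonneg _
  have h8 : 9 * M ≤ 3 * e - 1 := by nlinarith
  nlinarith

/-- **No exceptional component at the generic points.** -/
theorem no_component {m d e : ℕ} (hn : 10 ≤ n) {c : Fin n → ℕ}
    (hd : √(n : ℝ) * d ≤ n * m + (n - √(n : ℝ)) / 2) (he : 1 ≤ e)
    (h1 : (e : ℤ) ^ 2 - ∑ i, (c i : ℤ) ^ 2 = -1) (h2 : -3 * (e : ℤ) + ∑ i, (c i : ℤ) = -1)
    {F : MvPolynomial (Fin 3) (K n)} (hF : F ∈ V (gK n) e c) (hirr : Irreducible F)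
    (hFx : ∀ i, F ∉ pt (gK n i 0) (gK n i 1) ^ (c i + 1))
    (hdiv : ∀ Q ∈ V (gK n) d (fun _ => m), F ∣ Q) {Q : MvPolynomial (Fin 3) (K n)}
    (hQ : Q ∈ V (gK n) d (fun _ => m)) (hQ0 : Q ≠ 0) : False := by
  classical
  have : Nonempty (Fin n) := ⟨⟨0, by omega⟩⟩
  obtain ⟨i0, hi0⟩ := Finite.exists_max c
  have hcard := card_max i0 hi0 h1 h2
  let S : Finset (Fin n) := insert i0 (Finset.univ.filter fun i => ¬ c i = c i0)
  have hS : n ≤ S.card + 7 := by
    have h3 := Finset.card_filter_add_card_filter_not (s := (Finset.univ : Finset (Fin n)))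
      (fun i => c i = c i0)
    rw [Finset.card_univ, Fintype.card_fin] at h3
    have h4 : S.card = (Finset.univ.filter fun i => ¬ c i = c i0).card + 1 :=
      Finset.card_insert_of_notMem (by simp)
    omega
  have hinv : ∀ j i : Fin n, Equiv.swap i0 j (Equiv.swap i0 j i) = i := fun j i =>
    Equiv.swap_apply_self _ _ _
  let G : Fin n → MvPolynomial (Fin 3) (K n) := fun j => cj (Equiv.swap i0 j) F
  let γ : Fin n → Fin n → ℕ := fun j i => c (Equiv.swap i0 j i)
  have hGV : ∀ j, G j ∈ V (gK n) e (γ j) := fun j => cj_V (w := c) (hinv j) hF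
  have hGirr : ∀ j, Irreducible (G j) := fun j => cj_irr hirr
  have hGx : ∀ j i, G j ∉ pt (gK n i 0) (gK n i 1) ^ (γ j i + 1) := fun j i h =>
    hFx _ ((cj_pt' (hinv j)).1 h)
  have hGQ : ∀ j, G j ∣ Q := by
    intro j
    have h3 : cj (Equiv.swap i0 j) Q ∈ V (gK n) d (fun _ => m) :=
      cj_V (w := fun _ => m) (hinv j) hQ
    have h4 := cj_dvd (σ := Equiv.swap i0 j) (hdiv _ h3)
    rwa [cj_cj (hinv j)] at h4
  -- pairwise coprime
  have hne : ∀ j l : Fin n, j ∈ S → l ∈ S → j ≠ i0 → j ≠ l → ∀ a : K n, a ≠ 0 →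
      G l = C a * G j → False := by
    intro j l hj hl hj0 hjl a ha hal
    have hcj : ¬ c j = c i0 := by
      rcases Finset.mem_insert.1 hj with h | h
      · exact absurd h hj0
      · exact (Finset.mem_filter.1 h).2
    have h3 : γ j j = c i0 := by
      show c (Equiv.swap i0 j j) = c i0
      rw [Equiv.swap_apply_right]
    have h4 : γ l j = c j := by
      show c (Equiv.swap i0 l j) = c j
      rw [Equiv.swap_apply_of_ne_of_ne hj0 hjl]
    apply hcj
    rw [← h3, ← h4]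
    have hmem : ∀ k, G l ∈ pt (gK n j 0) (gK n j 1) ^ k ↔ G j ∈ pt (gK n j 0) (gK n j 1) ^ k := by
      intro k
      rw [hal]
      constructor
      · intro h5
        have h6 := Ideal.mul_mem_left _ (C a⁻¹) h5
        rwa [← mul_assoc, ← C_mul, inv_mul_cancel₀ ha, C_1, one_mul] at h6
      · exact fun h5 => Ideal.mul_mem_left _ _ h5
    refine exact_unique (f := G l) (I := pt (gK n j 0) (gK n j 1)) ((mem_V.1 (hGV l)).2 j)
      (hGx l j) ((hmem _).2 ((mem_V.1 (hGV j)).2 j)) (fun h => hGx j j ((hmem _).1 h))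
  have hcop : ∀ j l : Fin n, j ∈ S → l ∈ S → j ≠ l → IsRelPrime (G j) (G l) := by
    intro j l hj hl hjl
    rw [(hGirr j).isRelPrime_iff_not_dvd]
    intro hdv
    obtain ⟨a, ha, hal⟩ := eq_smul_of_dvd (mem_V.1 (hGV j)).1 (mem_V.1 (hGV l)).1
      (hGirr l).ne_zero hdv
    by_cases hj0 : j = i0
    · refine hne l j hl hj (fun h => hjl (hj0.trans h.symm)) (Ne.symm hjl) a⁻¹ (inv_ne_zero ha) ?_
      rw [hal, ← mul_assoc, ← C_mul, inv_mul_cancel₀ ha, C_1, one_mul]
    · exact hne j l hj hl hj0 hjl a ha hal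
  have hprod : ∏ j ∈ S, G j ∣ Q :=
    Finset.prod_dvd_of_isRelPrime (fun j hj l hl hjl => hcop j l hj hl hjl) fun j _ => hGQ j
  obtain ⟨H, hH⟩ := hprod
  have hH0 : H ≠ 0 := by
    rintro rfl
    rw [mul_zero] at hH
    exact hQ0 hH
  obtain ⟨h3, h4⟩ := prod_quot S G e γ (fun j _ => (mem_V.1 (hGV j)).1)
    (fun j _ => (hGirr j).ne_zero) (fun j _ i => hGx j i) hH0 (hH ▸ hQ)
  -- Nagata's inequality for the cofactor
  have h5 : ∑ i, ((m - ∑ j ∈ S, γ j i : ℕ) : ℝ) ≤ √(n : ℝ) * ((d - S.card * e : ℕ) : ℝ) := by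
    by_contra hcon
    have h6 := V_eq_bot hn (not_le.1 hcon)
    rw [h6, Submodule.mem_bot] at h4
    exact hH0 h4
  rw [Nat.cast_sub h3] at h5
  have h6 : (n : ℝ) * m - S.card * (3 * e - 1) ≤ ∑ i, ((m - ∑ j ∈ S, γ j i : ℕ) : ℝ) := by
    have h7 : ∀ i, (m : ℝ) - ∑ j ∈ S, (γ j i : ℝ) ≤ ((m - ∑ j ∈ S, γ j i : ℕ) : ℝ) := by
      intro i
      have := le_tsub_add (a := ∑ j ∈ S, γ j i) (b := m)
      have h8 : (m : ℝ) ≤ ((m - ∑ j ∈ S, γ j i : ℕ) : ℝ) + ((∑ j ∈ S, γ j i : ℕ) : ℝ) := by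
        exact_mod_cast this
      push_cast at h8 ⊢
      linarith
    have h8 : ∑ i, ∑ j ∈ S, (γ j i : ℝ) = S.card * (3 * e - 1) := by
      rw [Finset.sum_comm]
      have h9 : ∀ j ∈ S, ∑ i, (γ j i : ℝ) = 3 * e - 1 := by
        intro j _
        have h10 : ∑ i, (γ j i : ℝ) = ∑ i, (c i : ℝ) :=
          Equiv.sum_comp (Equiv.swap i0 j) (fun i => (c i : ℝ))
        rw [h10]
        have h11 : ∑ i, (c i : ℤ) = 3 * e - 1 := by linarith
        have h12 : ((∑ i, (c i : ℤ) : ℤ) : ℝ) = ((3 * e - 1 : ℤ) : ℝ) := by rw [h11]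
        push_cast at h12
        exact h12
      rw [Finset.sum_congr rfl h9, Finset.sum_const, nsmul_eq_mul]
    calc (n : ℝ) * m - S.card * (3 * e - 1) = ∑ i, ((m : ℝ) - ∑ j ∈ S, (γ j i : ℝ)) := by
          rw [Finset.sum_sub_distrib, h8, Finset.sum_const, Finset.card_univ, Fintype.card_fin,
            nsmul_eq_mul]
      _ ≤ _ := Finset.sum_le_sum fun i _ => h7 i
  -- numerics
  have hnR : (10 : ℝ) ≤ n := by exact_mod_cast hn
  obtain ⟨s, hs⟩ : ∃ s, s = √(n : ℝ) := ⟨_, rfl⟩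
  have hss : s * s = n := by rw [hs]; exact Real.mul_self_sqrt (by linarith)
  rw [← hs] at h5 hd
  have hs1 : 3162 / 1000 ≤ s := by
    rw [hs]
    apply Real.le_sqrt_of_sq_le
    norm_num
    linarith
  obtain ⟨t, ht⟩ : ∃ t : ℝ, t = S.card := ⟨_, rfl⟩
  have ht7 : (n : ℝ) - 7 ≤ t := by
    rw [ht]
    have : (n : ℝ) ≤ ((S.card + 7 : ℕ) : ℝ) := by exact_mod_cast hS
    push_cast at this
    linarith
  push_cast at h5
  rw [← ht] at h5 h6
  have heR : (1 : ℝ) ≤ e := by exact_mod_cast he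
  have h7 : t * (e * (s - 3) + 1) ≤ (n - s) / 2 := by nlinarith
  have h8 : t * (s - 2) ≤ t * (e * (s - 3) + 1) := by
    apply mul_le_mul_of_nonneg_left _ (by linarith)
    nlinarith
  have h9 : ((n : ℝ) - 7) * (s - 2) ≤ t * (s - 2) :=
    mul_le_mul_of_nonneg_right ht7 (by linarith)
  have h10 : ((n : ℝ) - 7) * (s - 2) ≤ (n - s) / 2 := h9.trans (h8.trans h7)
  rw [← hss] at h10
  nlinarith

end Pool.Agent.TH387.EX
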