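import Pool.Agent.TH387.EX.Ord
import Pool.Agent.H932R2.Semi
import Pool.Agent.TH603.Sur.Uni

set_option autoImplicit false

/-! Forms with assigned multiplicities at the generic points and at special points. -/

namespace Pool.Agent.TH387.EX

open MvPolynomial

section basic

variable {A : Type*} [CommRing A] {n : ℕ}

/-- the forms of degree `d` with multiplicity at least `w i` at `(P i 0 : P i 1 : 1)` -/
noncomputable def V (P : Fin n → Fin 2 → A) (d : ℕ) (w : Fin n → ℕ) :
    Submodule A (MvPolynomial (Fin 3) A) :=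
  homogeneousSubmodule (Fin 3) A d ⊓
    Submodule.restrictScalars A (⨅ i : Fin n, pt (P i 0) (P i 1) ^ w i)

theorem mem_V {P : Fin n → Fin 2 → A} {d : ℕ} {w : Fin n → ℕ} {f : MvPolynomial (Fin 3) A} :
    f ∈ V P d w ↔ f.IsHomogeneous d ∧ ∀ i, f ∈ pt (P i 0) (P i 1) ^ w i := by
  unfold V
  rw [Submodule.mem_inf, mem_homogeneousSubmodule, Submodule.restrictScalars_mem, Ideal.mem_iInf]

theorem V_map {B : Type*} [CommRing B] (φ : A →+* B) {P : Fin n → Fin 2 → A}
    {d : ℕ} {w : Fin n → ℕ} {f : MvPolynomial (Fin 3) A} (hf : f ∈ V P d w) :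
    map φ f ∈ V (fun i j => φ (P i j)) d w := by
  rw [mem_V] at hf ⊢
  exact ⟨hf.1.map φ, fun i => mem_map φ (hf.2 i)⟩

theorem V_map_iff {B : Type*} [CommRing B] (φ : A →+* B) (hφ : Function.Injective φ)
    {P : Fin n → Fin 2 → A} {d : ℕ} {w : Fin n → ℕ} {f : MvPolynomial (Fin 3) A} :
    map φ f ∈ V (fun i j => φ (P i j)) d w ↔ f ∈ V P d w := by
  refine ⟨fun hf => ?_, V_map φ⟩
  rw [mem_V] at hf ⊢
  exact ⟨hf.1.of_map hφ, fun i => (mem_map_iff φ hφ).1 (hf.2 i)⟩

theorem tr_hom {a b : A} {d : ℕ} {f : MvPolynomial (Fin 3) A} (hf : f.IsHomogeneous d) :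
    (tr a b f).IsHomogeneous d := by
  have h := hf.aeval (n := 1) (![X 0 + C a * X 2, X 1 + C b * X 2, X 2] :
      Fin 3 → MvPolynomial (Fin 3) A) (fun i => by
    fin_cases i
    · exact (isHomogeneous_X _ _).add ((isHomogeneous_X _ _).C_mul _)
    · exact (isHomogeneous_X _ _).add ((isHomogeneous_X _ _).C_mul _)
    · exact isHomogeneous_X _ _)
  rw [one_mul] at h
  exact h

/-- a factor of a homogeneous polynomial whose cofactor is homogeneous is homogeneous -/
theorem hom_of_mul [IsDomain A] {G F : MvPolynomial (Fin 3) A} {g d : ℕ}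
    (hG : G.IsHomogeneous g) (hG0 : G ≠ 0)
    (hF : F ≠ 0) (h : (G * F).IsHomogeneous d) : g ≤ d ∧ F.IsHomogeneous (d - g) := by
  have key : ∀ e, g + e ≠ d → homogeneousComponent e F = 0 := by
    intro e he
    have h1 : homogeneousComponent (g + e) (G * F) = G * homogeneousComponent e F := by
      conv_lhs => rw [← sum_homogeneousComponent F, Finset.mul_sum, map_sum]
      by_cases hn : e ∈ Finset.range (F.totalDegree + 1)
      · rw [Finset.sum_eq_single e]
        · rw [homogeneousComponent_of_mem (hG.mul (homogeneousComponent_isHomogeneous e F)),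
            if_pos rfl]
        · intro m _ hm
          rw [homogeneousComponent_of_mem (hG.mul (homogeneousComponent_isHomogeneous m F)),
            if_neg (by omega)]
        · intro h
          exact absurd hn h
      · rw [Finset.sum_eq_zero]
        · rw [homogeneousComponent_eq_zero e F (by
            rw [Finset.mem_range, not_lt] at hn
            omega), mul_zero]
        · intro m hm
          rw [homogeneousComponent_of_mem (hG.mul (homogeneousComponent_isHomogeneous m F)),
            if_neg]
          intro h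
          have : e = m := by omega
          rw [this] at hn
          exact hn hm
    rw [homogeneousComponent_of_mem h, if_neg he] at h1
    rcases mul_eq_zero.1 h1.symm with h2 | h2
    · exact absurd h2 hG0
    · exact h2
  have hgd : g ≤ d := by
    by_contra hcon
    apply hF
    rw [← sum_homogeneousComponent F]
    exact Finset.sum_eq_zero fun e _ => key e (by omega)
  refine ⟨hgd, ?_⟩
  have : F = homogeneousComponent (d - g) F := by
    conv_lhs => rw [← sum_homogeneousComponent F]
    by_cases hn : d - g ∈ Finset.range (F.totalDegree + 1)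
    · rw [Finset.sum_eq_single (d - g)]
      · intro m _ hm
        exact key m (by omega)
      · intro h
        exact absurd hn h
    · rw [Finset.sum_eq_zero]
      · rw [homogeneousComponent_eq_zero _ F (by
            rw [Finset.mem_range, not_lt] at hn
            omega)]
      · intro m hm
        apply key
        rw [Finset.mem_range] at hn hm
        omega
  rw [this]
  exact homogeneousComponent_isHomogeneous _ _

end basic

instance finV {L : Type*} [Field L] {n : ℕ} (P : Fin n → Fin 2 → L) (d : ℕ) (w : Fin n → ℕ) :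
    Module.Finite L ↥(V P d w) := by
  have h3 : Module.Finite L ↥(homogeneousSubmodule (Fin 3) L d) :=
    Module.Finite.iff_fg.2 (homogeneousSubmodule_fg _ _ d)
  exact Submodule.finiteDimensional_of_le (S₁ := V P d w)
    (S₂ := homogeneousSubmodule (Fin 3) L d) inf_le_left

/-- the change of variables between two conventions -/
def cyc : Fin 3 → Fin 3 := ![2, 0, 1]

theorem cyc_inj : Function.Injective cyc := by decide

/-- counting conditions -/
theorem exists_mem_V {L : Type*} [Field L] {n : ℕ} (P : Fin n → Fin 2 → L) {d : ℕ} {w : Fin n → ℕ}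
    (h : ∑ i, (w i + 1).choose 2 < (d + 2).choose 2) : ∃ f ∈ V P d w, f ≠ 0 := by
  obtain ⟨a, h1, _, h3⟩ := Pool.Agent.H932R5.finrank_aux (E := 1) (K := L) d w P
  have h6 : 0 < Module.finrank L ↥(Pool.Agent.H932R5.Vd (E := 1) (K := L) d w P) := by
    have e1 : (d + 1 + 1).choose (1 + 1) = (d + 2).choose 2 := rfl
    have e2 : ∑ i, (w i + 1).choose (1 + 1) = ∑ i, (w i + 1).choose 2 := rfl
    rw [e1] at h3
    rw [e2] at h1
    omega
  have hne : Pool.Agent.H932R5.Vd (E := 1) (K := L) d w P ≠ ⊥ := by
    intro h0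
    rw [h0, finrank_bot] at h6
    exact lt_irrefl _ h6
  obtain ⟨x, hx, hx0⟩ := Submodule.exists_mem_ne_zero_of_ne_bot hne
  unfold Pool.Agent.H932R5.Vd at hx
  rw [Submodule.mem_inf, mem_homogeneousSubmodule, Submodule.restrictScalars_mem,
    Ideal.mem_iInf] at hx
  refine ⟨rename cyc x, mem_V.2 ⟨hx.1.rename_isHomogeneous, fun i => ?_⟩, fun h0 => ?_⟩
  · have h7 := Ideal.mem_map_of_mem (rename cyc : MvPolynomial (Fin 3) L →ₐ[L] _) (hx.2 i)
    rw [Ideal.map_pow] at h7
    refine Ideal.pow_right_mono ?_ (w i) h7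
    unfold Pool.Agent.H932R5.hI
    rw [Ideal.map_span, Ideal.span_le]
    rintro _ ⟨_, ⟨j, rfl⟩, rfl⟩
    have e : (rename cyc : MvPolynomial (Fin 3) L →ₐ[L] _) (X j.succ - C (P i j) * X 0) =
        X (cyc j.succ) - C (P i j) * X 2 := by
      rw [map_sub, map_mul, rename_X, rename_X, rename_C]
      rfl
    refine Ideal.subset_span ?_
    show (rename cyc : MvPolynomial (Fin 3) L →ₐ[L] _) (X j.succ - C (P i j) * X 0) ∈ _
    rw [e]
    fin_cases j
    · left; rfl
    · right; rfl
  · exact hx0 (rename_injective cyc cyc_inj (by rw [h0, map_zero]))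

/-- the coefficients of the points -/
abbrev R (n : ℕ) := MvPolynomial (Fin n × Fin 2) ℂ

/-- the field of rational functions in the coefficients of the points -/
abbrev K (n : ℕ) := FractionRing (R n)

/-- the generic points -/
noncomputable def gp (n : ℕ) : Fin n → Fin 2 → R n := fun i j => X (i, j)

/-- the generic points over the field -/
noncomputable def gK (n : ℕ) : Fin n → Fin 2 → K n := fun i j => algebraMap (R n) (K n) (gp n i j)

/-- evaluation at points -/
noncomputable def ev {n : ℕ} (Y : Fin n → Fin 2 → ℂ) : R n →+* ℂ :=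
  eval fun ij : Fin n × Fin 2 => Y ij.1 ij.2

theorem inj (n : ℕ) : Function.Injective (algebraMap (R n) (K n)) :=
  IsFractionRing.injective _ _

theorem V_ev {n : ℕ} (Y : Fin n → Fin 2 → ℂ) {d : ℕ} {w : Fin n → ℕ}
    {f : MvPolynomial (Fin 3) (R n)} (hf : f ∈ V (gp n) d w) : map (ev Y) f ∈ V Y d w := by
  have h := V_map (ev Y) hf
  have e : (fun i j => ev Y (gp n i j)) = Y := by
    funext i j
    simp [ev, gp]
  rwa [e] at h

theorem V_K {n : ℕ} {d : ℕ} {w : Fin n → ℕ}
    {f : MvPolynomial (Fin 3) (R n)} :
    map (algebraMap (R n) (K n)) f ∈ V (gK n) d w ↔ f ∈ V (gp n) d w :=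
  V_map_iff _ (inj n)

/-- clearing denominators -/
theorem exists_clear {n : ℕ} (g : MvPolynomial (Fin 3) (K n)) : ∃ (r : R n) (f : MvPolynomial (Fin 3) (R n)),
    r ≠ 0 ∧ map (algebraMap (R n) (K n)) f = C (algebraMap (R n) (K n) r) * g := by
  classical
  obtain ⟨b, hb⟩ := IsLocalization.exist_integer_multiples_of_finset (nonZeroDivisors (R n))
    (g.support.image fun s => coeff s g)
  have h1 : ∀ s : Fin 3 →₀ ℕ, ∃ x : R n, algebraMap (R n) (K n) x =
      algebraMap (R n) (K n) b * coeff s g := by
    intro s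
    by_cases hs : s ∈ g.support
    · obtain ⟨x, hx⟩ := hb (coeff s g) (Finset.mem_image_of_mem _ hs)
      exact ⟨x, by rw [hx, Algebra.smul_def]⟩
    · exact ⟨0, by rw [map_zero, notMem_support_iff.1 hs, mul_zero]⟩
  choose x hx using h1
  refine ⟨b, ∑ s ∈ g.support, monomial s (x s), nonZeroDivisors.ne_zero b.2, ?_⟩
  rw [map_sum]
  conv_rhs => rw [g.as_sum, Finset.mul_sum]
  refine Finset.sum_congr rfl fun s _ => ?_
  rw [map_monomial, hx, C_mul_monomial]

/-- linear independence at the generic point spreads out -/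
theorem li_spread {n q : ℕ} {T : Type*} [Fintype T] (v : Fin q → T → R n)
    (h : LinearIndependent (K n) (fun j t => algebraMap (R n) (K n) (v j t))) :
    ∃ g : R n, g ≠ 0 ∧ ∀ Y : Fin n → Fin 2 → ℂ, ev Y g ≠ 0 →
      LinearIndependent ℂ (fun j t => ev Y (v j t)) := by
  classical
  obtain ⟨u, hu⟩ := Pool.Agent.H932R2.exists_dual_map _ h
  let G : Fin q → T → K n := fun i t => u (Pi.single t 1) i
  obtain ⟨b, hb⟩ := IsLocalization.exist_integer_multiples_of_finset (nonZeroDivisors (R n))
    ((Finset.univ : Finset (Fin q × T)).image fun p => G p.1 p.2)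
  have h1 : ∀ p : Fin q × T, ∃ x : R n, algebraMap (R n) (K n) x =
      algebraMap (R n) (K n) b * G p.1 p.2 := by
    intro p
    obtain ⟨x, hx⟩ := hb (G p.1 p.2) (Finset.mem_image_of_mem _ (Finset.mem_univ p))
    exact ⟨x, by rw [hx, Algebra.smul_def]⟩
  choose x hx using h1
  have h2 : ∀ i j, ∑ t, x (i, t) * v j t = if i = j then (b : R n) else 0 := by
    intro i j
    apply inj n
    rw [map_sum]
    have h3 : ∑ t, algebraMap (R n) (K n) (v j t) • u (Pi.single t 1) i =
        (Pi.single j (1 : K n) : Fin q → K n) i := by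
      rw [← hu j]
      have h4 : (fun t => algebraMap (R n) (K n) (v j t)) =
          ∑ t, algebraMap (R n) (K n) (v j t) • (Pi.single t (1 : K n) : T → K n) := by
        funext s
        rw [Finset.sum_apply, Finset.sum_eq_single s]
        · rw [Pi.smul_apply, Pi.single_eq_same, smul_eq_mul, mul_one]
        · intro t _ ht
          rw [Pi.smul_apply, Pi.single_eq_of_ne (Ne.symm ht), smul_zero]
        · intro h
          exact absurd (Finset.mem_univ s) h
      rw [h4, map_sum, Finset.sum_apply]
      refine Finset.sum_congr rfl fun t _ => ?_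
      rw [map_smul, Pi.smul_apply]
    have h5 : ∑ t, algebraMap (R n) (K n) (x (i, t) * v j t) =
        algebraMap (R n) (K n) b * ∑ t, algebraMap (R n) (K n) (v j t) • u (Pi.single t 1) i := by
      rw [Finset.mul_sum]
      refine Finset.sum_congr rfl fun t _ => ?_
      rw [map_mul, hx, smul_eq_mul]
      ring
    rw [h5, h3, Pi.single_apply]
    split_ifs
    · rw [mul_one]
    · rw [mul_zero, map_zero]
  refine ⟨b, nonZeroDivisors.ne_zero b.2, fun Y hY => ?_⟩
  rw [Fintype.linearIndependent_iff]
  intro a ha i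
  have h3 : ∀ t, ∑ j, a j * ev Y (v j t) = 0 := by
    intro t
    have := congrFun ha t
    simpa [Finset.sum_apply] using this
  have h4 : a i * ev Y b = 0 := by
    have h5 : ∑ t, ev Y (x (i, t)) * ∑ j, a j * ev Y (v j t) = a i * ev Y b := by
      simp only [Finset.mul_sum]
      rw [Finset.sum_comm]
      have h6 : ∀ j, ∑ t, ev Y (x (i, t)) * (a j * ev Y (v j t)) =
          a j * ev Y (∑ t, x (i, t) * v j t) := by
        intro j
        rw [map_sum, Finset.mul_sum]
        refine Finset.sum_congr rfl fun t _ => ?_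
        rw [map_mul]; ring
      simp only [h6, h2]
      rw [Finset.sum_eq_single i]
      · rw [if_pos rfl]
      · intro j _ hj
        rw [if_neg (fun h => hj h.symm), map_zero, mul_zero]
      · intro h
        exact absurd (Finset.mem_univ i) h
    rw [← h5]
    exact Finset.sum_eq_zero fun t _ => by rw [h3, mul_zero]
  exact (mul_eq_zero.1 h4).resolve_right hY

end Pool.Agent.TH387.EX
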