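import Pool.Agent.TH387.EX.Gen

set_option autoImplicit false
set_option maxHeartbeats 400000

/-! From the generic points to general points. -/

namespace Pool.Agent.TH387.EX

open MvPolynomial

/-- the monomials of degree `d` -/
noncomputable def Td (d : ℕ) : Finset (Fin 3 →₀ ℕ) :=
  (Finset.univ : Finset (Fin 3)).finsuppAntidiag d

theorem mem_Td {d : ℕ} {s : Fin 3 →₀ ℕ} : s ∈ Td d ↔ s.degree = d := by
  rw [Td, Finset.mem_finsuppAntidiag]
  simp [Finsupp.degree_eq_sum]

theorem eq_zero_of_Td {A : Type*} [CommRing A] {d : ℕ} {f : MvPolynomial (Fin 3) A}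
    (hf : f.IsHomogeneous d) (h : ∀ t ∈ Td d, coeff t f = 0) : f = 0 := by
  ext t
  rw [coeff_zero]
  by_cases ht : t ∈ Td d
  · exact h t ht
  · exact hf.coeff_eq_zero (fun h' => ht (mem_Td.2 h'))

theorem sum_Td {A : Type*} [CommRing A] {d : ℕ} {f : MvPolynomial (Fin 3) A}
    (hf : f.IsHomogeneous d) : ∑ s : Td d, monomial s.1 (coeff s.1 f) = f := by
  ext t
  rw [coeff_sum]
  by_cases ht : t ∈ Td d
  · rw [Finset.sum_eq_single (⟨t, ht⟩ : Td d)]
    · rw [coeff_monomial, if_pos rfl]
    · intro s _ hs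
      rw [coeff_monomial, if_neg]
      intro h
      exact hs (Subtype.ext h)
    · intro h
      exact absurd (Finset.mem_univ _) h
  · rw [hf.coeff_eq_zero (fun h' => ht (mem_Td.2 h'))]
    refine Finset.sum_eq_zero fun s _ => ?_
    rw [coeff_monomial, if_neg]
    intro h
    exact ht (h ▸ s.2)

/-- linear independence at the generic point spreads out, any index type -/
theorem li_spread' {n : ℕ} {J T : Type*} [Fintype J] [Fintype T] (v : J → T → R n)
    (h : LinearIndependent (K n) (fun j t => algebraMap (R n) (K n) (v j t))) :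
    ∃ g : R n, g ≠ 0 ∧ ∀ Y : Fin n → Fin 2 → ℂ, ev Y g ≠ 0 →
      LinearIndependent ℂ (fun j t => ev Y (v j t)) := by
  let e := Fintype.equivFin J
  obtain ⟨g, hg, hg'⟩ := li_spread (fun j => v (e.symm j))
    ((linearIndependent_equiv e.symm).2 h)
  exact ⟨g, hg, fun Y hY => (linearIndependent_equiv e.symm).1 (hg' Y hY)⟩

theorem li_poly {n d : ℕ} {J : Type*} [Fintype J] {L : Type*} [Field L] (φ : R n →+* L)
    (p : J → MvPolynomial (Fin 3) (R n)) (hp : ∀ j, (p j).IsHomogeneous d) :
    LinearIndependent L (fun j (t : Td d) => φ (coeff t.1 (p j))) ↔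
      LinearIndependent L (fun j => map φ (p j)) := by
  rw [Fintype.linearIndependent_iff, Fintype.linearIndependent_iff]
  refine forall_congr' fun g => ?_
  have h1 : (∑ j, g j • (fun t : Td d => φ (coeff t.1 (p j))) = 0) ↔
      (∑ j, g j • map φ (p j) = 0) := by
    constructor
    · intro h
      refine eq_zero_of_Td (d := d) ?_ fun t ht => ?_
      · exact (homogeneousSubmodule (Fin 3) L d).sum_mem fun j _ =>
          Submodule.smul_mem _ _ ((hp j).map φ)
      · have h2 := congrFun h ⟨t, ht⟩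
        rw [Finset.sum_apply] at h2
        rw [coeff_sum]
        simpa [coeff_map] using h2
    · intro h
      funext t
      have h2 := congrArg (coeff t.1) h
      rw [coeff_sum] at h2
      rw [Finset.sum_apply]
      simpa [coeff_map] using h2
  rw [h1]

theorem li_poly_spread {n d : ℕ} {J : Type*} [Fintype J]
    (p : J → MvPolynomial (Fin 3) (R n)) (hp : ∀ j, (p j).IsHomogeneous d)
    (h : LinearIndependent (K n) (fun j => map (algebraMap (R n) (K n)) (p j))) :
    ∃ g : R n, g ≠ 0 ∧ ∀ Y : Fin n → Fin 2 → ℂ, ev Y g ≠ 0 →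
      LinearIndependent ℂ (fun j => map (ev Y) (p j)) := by
  obtain ⟨g, hg, hg'⟩ := li_spread' (fun j (t : Td d) => coeff t.1 (p j))
    ((li_poly _ p hp).2 h)
  exact ⟨g, hg, fun Y hY => (li_poly _ p hp).1 (hg' Y hY)⟩

/-- emptiness at the generic points spreads out -/
theorem empty_spread {n d : ℕ} {w : Fin n → ℕ} (h : V (gK n) d w = ⊥) :
    ∃ g : R n, g ≠ 0 ∧ ∀ Y : Fin n → Fin 2 → ℂ, ev Y g ≠ 0 → V Y d w = ⊥ := by
  classical
  let u : Td d → (Fin n × Td d) → R n := fun s p =>
    if p.2.1 0 + p.2.1 1 < w p.1 then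
      coeff p.2.1 (tr (gp n p.1 0) (gp n p.1 1) (monomial s.1 1)) else 0
  -- the value of the conditions on a form
  have key : ∀ {L : Type} [Field L] (φ : R n →+* L) (a : Td d → L) (p : Fin n × Td d),
      ∑ s, a s * φ (u s p) = if p.2.1 0 + p.2.1 1 < w p.1 then
        coeff p.2.1 (tr (φ (gp n p.1 0)) (φ (gp n p.1 1)) (∑ s : Td d, monomial s.1 (a s)))
        else 0 := by
    intro L _ φ a p
    by_cases hp : p.2.1 0 + p.2.1 1 < w p.1
    · rw [if_pos hp, map_sum, coeff_sum]
      refine Finset.sum_congr rfl fun s _ => ?_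
      simp only [u]
      rw [if_pos hp, ← coeff_map, map_tr, map_monomial, map_one]
      have e1 : (monomial s.1 (a s) : MvPolynomial (Fin 3) L) = a s • monomial s.1 1 := by
        rw [smul_monomial, smul_eq_mul, mul_one]
      rw [e1, map_smul, coeff_smul, smul_eq_mul]
    · rw [if_neg hp]
      refine Finset.sum_eq_zero fun s _ => ?_
      simp only [u]
      rw [if_neg hp, map_zero, mul_zero]
  have hli : LinearIndependent (K n) (fun s p => algebraMap (R n) (K n) (u s p)) := by
    rw [Fintype.linearIndependent_iff]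
    intro a ha s
    have h1 : (∑ s : Td d, monomial s.1 (a s) : MvPolynomial (Fin 3) (K n)) ∈ V (gK n) d w := by
      have hhom : (∑ s : Td d, monomial s.1 (a s) : MvPolynomial (Fin 3) (K n)).IsHomogeneous d :=
        (homogeneousSubmodule (Fin 3) (K n) d).sum_mem fun s _ =>
          isHomogeneous_monomial _ (mem_Td.1 s.2)
      refine mem_V.2 ⟨hhom, fun i => mem_pt_iff.2 fun t ht => ?_⟩
      by_cases htd : t ∈ Td d
      · have h2 := congrFun ha (i, ⟨t, htd⟩)
        rw [Finset.sum_apply] at h2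
        have h3 := key (algebraMap (R n) (K n)) a (i, ⟨t, htd⟩)
        rw [if_pos ht] at h3
        have h4 : ∑ s, a s * algebraMap (R n) (K n) (u s (i, ⟨t, htd⟩)) = 0 := by
          simpa using h2
        rw [h4] at h3
        exact h3.symm
      · exact (tr_hom hhom).coeff_eq_zero (fun h' => htd (mem_Td.2 h'))
    rw [h, Submodule.mem_bot] at h1
    have h2 := congrArg (coeff s.1) h1
    rw [coeff_sum, coeff_zero, Finset.sum_eq_single s] at h2
    · rwa [coeff_monomial, if_pos rfl] at h2
    · intro s' _ hs'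
      rw [coeff_monomial, if_neg]
      exact fun h' => hs' (Subtype.ext h')
    · intro h'
      exact absurd (Finset.mem_univ _) h'
  obtain ⟨g, hg, hg'⟩ := li_spread' u hli
  refine ⟨g, hg, fun Y hY => ?_⟩
  rw [Submodule.eq_bot_iff]
  intro f hf
  have h1 := Fintype.linearIndependent_iff.1 (hg' Y hY) (fun s => coeff s.1 f) (by
    funext p
    rw [Finset.sum_apply]
    have h3 := key (ev Y) (fun s => coeff s.1 f) p
    rw [sum_Td (mem_V.1 hf).1] at h3
    have h4 : ∑ s, coeff s.1 f * ev Y (u s p) = 0 := by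
      rw [h3]
      split_ifs with hp
      · have e : ∀ i j, ev Y (gp n i j) = Y i j := fun i j => by simp [ev, gp]
        rw [e, e]
        exact mem_pt_iff.1 ((mem_V.1 hf).2 p.1) p.2.1 hp
      · rfl
    simpa using h4)
  exact eq_zero_of_Td (mem_V.1 hf).1 fun t ht => h1 ⟨t, ht⟩

end Pool.Agent.TH387.EX
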