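import Pool.Agent.TH387.EX.Gal
import Pool.Agent.TH387.EX.Spread

set_option autoImplicit false
set_option maxHeartbeats 400000

/-! No exceptional form divides all forms of a uniform class at `n ≥ 10` general points. -/

namespace Pool.Agent.TH387.EX

open MvPolynomial

variable {n : ℕ}

/-- a coefficient of positive degree -/
theorem exists_coeff {L : Type*} [Field L] {A : MvPolynomial (Fin 3) L} (hA : A ≠ 0)
    (hu : ¬ IsUnit A) : ∃ s : Fin 3 →₀ ℕ, s ≠ 0 ∧ coeff s A ≠ 0 := by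
  by_contra hcon
  push Not at hcon
  have h1 : A = C (coeff 0 A) := by
    ext s
    by_cases hs : s = 0
    · rw [hs, coeff_C, if_pos rfl]
    · rw [hcon s hs, coeff_C, if_neg (Ne.symm hs)]
  apply hu
  rw [h1]
  apply IsUnit.map
  rw [isUnit_iff_ne_zero]
  intro h0
  rw [h0, C_0] at h1
  exact hA h1

theorem not_unit_of_coeff {L : Type*} [Field L] {A : MvPolynomial (Fin 3) L} {s : Fin 3 →₀ ℕ}
    (hs : s ≠ 0) (h : coeff s A ≠ 0) : ¬ IsUnit A := by
  intro hu
  have h1 : A.totalDegree = 0 := by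
    obtain ⟨B, hB⟩ := hu.exists_right_inv
    have hA0 : A ≠ 0 := by rintro rfl; simp at hB
    have hB0 : B ≠ 0 := by rintro rfl; simp at hB
    have h2 := totalDegree_mul_of_isDomain hA0 hB0
    rw [hB, totalDegree_one] at h2
    omega
  rw [totalDegree_eq_zero_iff_eq_C] at h1
  rw [h1, coeff_C, if_neg (Ne.symm hs)] at h
  exact h rfl

theorem mem_V_C_mul {L : Type*} [Field L] {P : Fin n → Fin 2 → L} {d : ℕ} {w : Fin n → ℕ}
    {f : MvPolynomial (Fin 3) L} (hf : f ∈ V P d w) (a : L) : C a * f ∈ V P d w := by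
  rw [← smul_eq_C_mul]
  exact Submodule.smul_mem _ _ hf

/-- numerics of an exceptional class -/
theorem num {e : ℕ} {c : Fin n → ℕ}
    (h1 : (e : ℤ) ^ 2 - ∑ i, (c i : ℤ) ^ 2 = -1) (h2 : -3 * (e : ℤ) + ∑ i, (c i : ℤ) = -1) :
    1 ≤ e ∧ ∑ i, (c i + 1).choose 2 < (e + 2).choose 2 := by
  have e1 : ∀ k : ℕ, 2 * (k + 1).choose 2 = k * k + k := by
    intro k
    rw [Nat.choose_two_right]
    have h2 : 2 ∣ (k + 1) * (k + 1 - 1) := by
      rw [Nat.add_sub_cancel]
      exact (Nat.even_mul_succ_self k).two_dvd.trans (by rw [mul_comm])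
    rw [Nat.mul_div_cancel' h2, Nat.add_sub_cancel]
    ring
  have h3 : (0 : ℤ) ≤ ∑ i, (c i : ℤ) := Finset.sum_nonneg fun i _ => Int.natCast_nonneg _
  refine ⟨by omega, ?_⟩
  have h7 : 2 * (e + 2).choose 2 = (e + 1) * (e + 1) + (e + 1) := e1 (e + 1)
  have h8 : 2 * ∑ i, (c i + 1).choose 2 = ∑ i, c i * c i + ∑ i, c i := by
    rw [Finset.mul_sum, ← Finset.sum_add_distrib]
    exact Finset.sum_congr rfl fun i _ => e1 (c i)
  have h9 : ((∑ i, c i * c i : ℕ) : ℤ) = e ^ 2 + 1 := by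
    push_cast
    have : ∑ i, (c i : ℤ) * (c i : ℤ) = ∑ i, (c i : ℤ) ^ 2 :=
      Finset.sum_congr rfl fun i _ => (sq _).symm
    rw [this]; linarith
  have h10 : ((∑ i, c i : ℕ) : ℤ) = 3 * e - 1 := by push_cast; linarith
  zify at h7 h8 ⊢
  push_cast at h7 h8 h9 h10 ⊢
  rw [h9, h10] at h8
  nlinarith

/-- the exceptional forms `F` of the class `(e; c)` at `Y` dividing all forms of the class `(d; m)` -/
def Bad (Y : Fin n → Fin 2 → ℂ) (d m e : ℕ) (c : Fin n → ℕ) : Prop :=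
  ∃ F : MvPolynomial (Fin 3) ℂ, Irreducible F ∧ F ∈ V Y e c ∧
    (∀ i, F ∉ pt (Y i 0) (Y i 1) ^ (c i + 1)) ∧ (∃ Q ∈ V Y d (fun _ => m), Q ≠ 0) ∧
    ∀ Q ∈ V Y d (fun _ => m), F ∣ Q

theorem class_open {d m e : ℕ} (hn : 10 ≤ n)
    (hd : √(n : ℝ) * d ≤ n * m + (n - √(n : ℝ)) / 2) {c : Fin n → ℕ}
    (h1 : (e : ℤ) ^ 2 - ∑ i, (c i : ℤ) ^ 2 = -1) (h2 : -3 * (e : ℤ) + ∑ i, (c i : ℤ) = -1) :
    ∃ g : R n, g ≠ 0 ∧ ∀ Y : Fin n → Fin 2 → ℂ, ev Y g ≠ 0 → ¬ Bad Y d m e c := by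
  classical
  obtain ⟨he, hcount⟩ := num h1 h2
  by_cases hA : V (gK n) d (fun _ => m) = ⊥
  · obtain ⟨g, hg, hg'⟩ := empty_spread hA
    refine ⟨g, hg, fun Y hY => ?_⟩
    rintro ⟨F, _, _, _, ⟨Q, hQ, hQ0⟩, _⟩
    rw [hg' Y hY, Submodule.mem_bot] at hQ
    exact hQ0 hQ
  obtain ⟨Q1, hQ1, hQ10⟩ := Submodule.exists_mem_ne_zero_of_ne_bot hA
  -- a form of the class at the generic points
  obtain ⟨F0, hF0, hF00⟩ := exists_mem_V (gK n) hcount
  obtain ⟨r, f1, hr, hf1⟩ := exists_clear F0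
  have hrK : algebraMap (R n) (K n) r ≠ 0 := fun h => hr (inj n (by rw [h, map_zero]))
  have hFηV : map (algebraMap (R n) (K n)) f1 ∈ V (gK n) e c := by
    rw [hf1]; exact mem_V_C_mul hF0 _
  have hf1V : f1 ∈ V (gp n) e c := V_K.1 hFηV
  have hFη0 : map (algebraMap (R n) (K n)) f1 ≠ 0 := by
    rw [hf1]; exact mul_ne_zero (by simpa using hrK) hF00
  have hf10 : f1 ≠ 0 := fun h => hFη0 (by rw [h, map_zero])
  obtain ⟨s1, hs1⟩ := exists_coeff_ne_zero hf10
  -- the specialisation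
  have spec : ∀ Y : Fin n → Fin 2 → ℂ, ev Y (coeff s1 f1) ≠ 0 → ∀ F : MvPolynomial (Fin 3) ℂ,
      Irreducible F → F ∈ V Y e c → (∀ i, F ∉ pt (Y i 0) (Y i 1) ^ (c i + 1)) →
      (∃ Q ∈ V Y d (fun _ => m), Q ≠ 0) → (∀ Q ∈ V Y d (fun _ => m), F ∣ Q) →
      ∃ a : ℂ, a ≠ 0 ∧ map (ev Y) f1 = C a * F := by
    rintro Y hY F hirr hF hFx ⟨Q, hQ, hQ0⟩ hdiv
    have h3 := V_ev Y hf1V
    have h4 : map (ev Y) f1 ≠ 0 := by
      intro h0
      have := congrArg (coeff s1) h0
      rw [coeff_map, coeff_zero] at this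
      exact hY this
    exact eq_smul_of_dvd (mem_V.1 hF).1 (mem_V.1 h3).1 h4
      (dvd_of_mem hF hirr hFx hdiv hQ hQ0 h3)
  -- irreducibility
  by_cases hirrη : Irreducible (map (algebraMap (R n) (K n)) f1)
  swap
  · have hnu : ¬ IsUnit (map (algebraMap (R n) (K n)) f1) := by
      intro hu
      obtain ⟨t, ht⟩ := exists_coeff_ne_zero hFη0
      have ht0 : t ≠ 0 := by
        rintro rfl
        have := (mem_V.1 hFηV).1.coeff_eq_zero (d := 0) (by simpa using (by omega : (0:ℕ) ≠ e))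
        exact ht this
      exact not_unit_of_coeff ht0 ht hu
    rw [irreducible_iff] at hirrη
    push Not at hirrη
    obtain ⟨A, B, hAB, hAu, hBu⟩ := hirrη hnu
    have hA0 : A ≠ 0 := by rintro rfl; rw [zero_mul] at hAB; exact hFη0 hAB
    have hB0 : B ≠ 0 := by rintro rfl; rw [mul_zero] at hAB; exact hFη0 hAB
    obtain ⟨sA, hsA, hcA⟩ := exists_coeff hA0 hAu
    obtain ⟨sB, hsB, hcB⟩ := exists_coeff hB0 hBu
    obtain ⟨rA, fA, hrA, hfA⟩ := exists_clear A
    obtain ⟨rB, fB, hrB, hfB⟩ := exists_clear B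
    have hprod : fA * fB = C (rA * rB) * f1 := by
      apply map_injective _ (inj n)
      rw [map_mul, map_mul, hfA, hfB, map_C, hAB, map_mul (algebraMap (R n) (K n)), C_mul]
      ring
    have hcoef : ∀ {rA : R n} {fA : MvPolynomial (Fin 3) (R n)} {A : MvPolynomial (Fin 3) (K n)}
        {sA : Fin 3 →₀ ℕ}, rA ≠ 0 →
        map (algebraMap (R n) (K n)) fA = C (algebraMap (R n) (K n) rA) * A →
        coeff sA A ≠ 0 → coeff sA fA ≠ 0 := by
      intro rA fA A sA hrA hfA hcA h0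
      have h3 := congrArg (coeff sA) hfA
      rw [coeff_map, h0, map_zero, coeff_C_mul] at h3
      rcases mul_eq_zero.1 h3.symm with h4 | h4
      · exact hrA (inj n (by rw [h4, map_zero]))
      · exact hcA h4
    refine ⟨coeff s1 f1 * (rA * rB) * (coeff sA fA * coeff sB fB),
      mul_ne_zero (mul_ne_zero hs1 (mul_ne_zero hrA hrB))
        (mul_ne_zero (hcoef hrA hfA hcA) (hcoef hrB hfB hcB)), fun Y hY => ?_⟩
    rintro ⟨F, hirr, hF, hFx, hQ, hdiv⟩
    rw [map_mul, map_mul, map_mul (ev Y) (coeff sA fA)] at hY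
    have hY1 := left_ne_zero_of_mul hY
    have hY2 := right_ne_zero_of_mul hY
    obtain ⟨a, ha, haF⟩ := spec Y (left_ne_zero_of_mul hY1) F hirr hF hFx hQ hdiv
    have h3 : map (ev Y) fA * map (ev Y) fB = C (ev Y (rA * rB) * a) * F := by
      rw [← map_mul, hprod, map_mul, map_C, haF, C_mul, mul_assoc]
    have h4 : Irreducible (C (ev Y (rA * rB) * a) * F) := by
      rw [irreducible_isUnit_mul]
      · exact hirr
      · exact (isUnit_iff_ne_zero.2 (mul_ne_zero (right_ne_zero_of_mul hY1) ha)).map C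
    rcases h4.isUnit_or_isUnit h3.symm with h5 | h5
    · exact not_unit_of_coeff hsA (by rw [coeff_map]; exact left_ne_zero_of_mul hY2) h5
    · exact not_unit_of_coeff hsB (by rw [coeff_map]; exact right_ne_zero_of_mul hY2) h5
  -- exactness
  by_cases hx : ∀ i, map (algebraMap (R n) (K n)) f1 ∉ pt (gK n i 0) (gK n i 1) ^ (c i + 1)
  swap
  · push Not at hx
    obtain ⟨i, hi⟩ := hx
    have h3 : f1 ∈ pt (gp n i 0) (gp n i 1) ^ (c i + 1) := (mem_map_iff _ (inj n)).1 hi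
    refine ⟨coeff s1 f1, hs1, fun Y hY => ?_⟩
    rintro ⟨F, hirr, hF, hFx, hQ, hdiv⟩
    obtain ⟨a, ha, haF⟩ := spec Y hY F hirr hF hFx hQ hdiv
    have h4 := mem_map (ev Y) h3
    have e1 : ∀ i j, ev Y (gp n i j) = Y i j := fun i j => by simp [ev, gp]
    rw [e1, e1, haF] at h4
    have h5 := Ideal.mul_mem_left _ (C a⁻¹) h4
    rw [← mul_assoc, ← C_mul, inv_mul_cancel₀ ha, C_1, one_mul] at h5
    exact hFx i h5
  -- divisibility
  by_cases hdv : ∀ Q ∈ V (gK n) d (fun _ => m), map (algebraMap (R n) (K n)) f1 ∣ Q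
  · exact (no_component hn hd he h1 h2 hFηV hirrη hx hdv hQ1 hQ10).elim
  push Not at hdv
  obtain ⟨Q0, hQ0, hQ0d⟩ := hdv
  by_cases hed : e ≤ d
  swap
  · refine ⟨1, one_ne_zero, fun Y _ => ?_⟩
    rintro ⟨F, hirr, hF, hFx, ⟨Q, hQ, hQ'⟩, hdiv⟩
    obtain ⟨H, hH⟩ := hdiv Q hQ
    have hH0 : H ≠ 0 := by rintro rfl; rw [mul_zero] at hH; exact hQ' hH
    exact hed (hom_of_mul (mem_V.1 hF).1 hirr.ne_zero hH0 (hH ▸ (mem_V.1 hQ).1)).1
  obtain ⟨r2, f2, hr2, hf2⟩ := exists_clear Q0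
  have hf2V : f2 ∈ V (gp n) d (fun _ => m) := V_K.1 (by rw [hf2]; exact mem_V_C_mul hQ0 _)
  let p : Option (Td (d - e)) → MvPolynomial (Fin 3) (R n) := fun o =>
    o.elim f2 (fun s => f1 * monomial s.1 1)
  have hp : ∀ j, (p j).IsHomogeneous d := by
    intro j
    cases j with
    | none => exact (mem_V.1 hf2V).1
    | some s =>
      have h3 := (mem_V.1 hf1V).1.mul (isHomogeneous_monomial (R := R n) 1 (mem_Td.1 s.2))
      rwa [Nat.add_sub_cancel' hed] at h3
  have comb : ∀ {L : Type} [Field L] (φ : R n →+* L) (g : Option (Td (d - e)) → L),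
      ∑ j, g j • map φ (p j) = C (g none) * map φ f2 +
        map φ f1 * ∑ s : Td (d - e), monomial s.1 (g (some s)) := by
    intro L _ φ g
    rw [Fintype.sum_option, smul_eq_C_mul, Finset.mul_sum]
    congr 1
    refine Finset.sum_congr rfl fun s _ => ?_
    show g (some s) • map φ (f1 * monomial s.1 1) = _
    rw [map_mul, map_monomial, map_one, ← mul_smul_comm, smul_monomial, smul_eq_mul, mul_one]
  have hli : LinearIndependent (K n) (fun j => map (algebraMap (R n) (K n)) (p j)) := by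
    rw [Fintype.linearIndependent_iff]
    intro g hg
    rw [comb] at hg
    have hg0 : g none = 0 := by
      by_contra hne
      apply hQ0d
      have hr2K : algebraMap (R n) (K n) r2 ≠ 0 := fun h => hr2 (inj n (by rw [h, map_zero]))
      rw [hf2] at hg
      have h3 : Q0 = map (algebraMap (R n) (K n)) f1 *
          (C (-((g none * algebraMap (R n) (K n) r2)⁻¹)) *
            ∑ s : Td (d - e), monomial s.1 (g (some s))) := by
        have h4 : C (g none * algebraMap (R n) (K n) r2) * Q0 =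
            - (map (algebraMap (R n) (K n)) f1 * ∑ s : Td (d - e), monomial s.1 (g (some s))) := by
          rw [C_mul, mul_assoc]
          exact eq_neg_of_add_eq_zero_left hg
        have h5 : Q0 = C ((g none * algebraMap (R n) (K n) r2)⁻¹) *
            (C (g none * algebraMap (R n) (K n) r2) * Q0) := by
          rw [← mul_assoc, ← C_mul, inv_mul_cancel₀ (mul_ne_zero hne hr2K), C_1, one_mul]
        rw [h4] at h5
        conv_lhs => rw [h5]
        rw [C_neg]
        ring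
      exact ⟨_, h3⟩
    rw [hg0, C_0, zero_mul, zero_add] at hg
    have h3 := (mul_eq_zero.1 hg).resolve_left hFη0
    intro j
    cases j with
    | none => exact hg0
    | some s =>
      have h4 := congrArg (coeff s.1) h3
      rw [coeff_sum, coeff_zero, Finset.sum_eq_single s] at h4
      · rwa [coeff_monomial, if_pos rfl] at h4
      · intro s' _ hs'
        rw [coeff_monomial, if_neg]
        exact fun h' => hs' (Subtype.ext h')
      · intro h'
        exact absurd (Finset.mem_univ _) h'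
  obtain ⟨g, hg, hg'⟩ := li_poly_spread p hp hli
  refine ⟨g * coeff s1 f1, mul_ne_zero hg hs1, fun Y hY => ?_⟩
  rintro ⟨F, hirr, hF, hFx, hQ, hdiv⟩
  rw [map_mul] at hY
  obtain ⟨a, ha, haF⟩ := spec Y (right_ne_zero_of_mul hY) F hirr hF hFx hQ hdiv
  have h3 := Fintype.linearIndependent_iff.1 (hg' Y (left_ne_zero_of_mul hY))
  have h4 : F ∣ map (ev Y) f2 := hdiv _ (V_ev Y hf2V)
  obtain ⟨H, hH⟩ : map (ev Y) f1 ∣ map (ev Y) f2 := by
    rw [haF]
    exact ((isUnit_iff_ne_zero.2 ha).map C).mul_left_dvd.2 h4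
  have hH' : H.IsHomogeneous (d - e) := by
    by_cases hH0 : H = 0
    · rw [hH0]; exact isHomogeneous_zero _ _ _
    · have hne : map (ev Y) f1 ≠ 0 := by
        rw [haF]
        exact mul_ne_zero (by simpa using ha) hirr.ne_zero
      exact (hom_of_mul (mem_V.1 (V_ev Y hf1V)).1 hne hH0
        (hH ▸ (mem_V.1 (V_ev Y hf2V)).1)).2
  have h5 := h3 (fun o => o.elim (-1) (fun s => coeff s.1 H)) (by
    rw [comb]
    simp only [Option.elim]
    rw [sum_Td hH', ← hH, C_neg, C_1]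
    ring) none
  simp at h5

end Pool.Agent.TH387.EX
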