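import Mathlib

set_option autoImplicit false

/-! Multiplicity of a form at the point `(a : b : 1)`, through coefficients. -/

namespace Pool.Agent.TH387.EX

open MvPolynomial

section ring

variable {A : Type*} [CommRing A]

/-- the translation moving the point `(a : b : 1)` to `(0 : 0 : 1)` -/
noncomputable def tr (a b : A) : MvPolynomial (Fin 3) A →ₐ[A] MvPolynomial (Fin 3) A :=
  aeval ![X 0 + C a * X 2, X 1 + C b * X 2, X 2]

@[simp] theorem tr_X0 (a b : A) : tr a b (X 0) = X 0 + C a * X 2 := by simp [tr]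
@[simp] theorem tr_X1 (a b : A) : tr a b (X 1) = X 1 + C b * X 2 := by simp [tr]
@[simp] theorem tr_X2 (a b : A) : tr a b (X 2) = X 2 := by simp [tr]

theorem tr_tr (a b : A) (f : MvPolynomial (Fin 3) A) : tr (-a) (-b) (tr a b f) = f := by
  have h : (tr (-a) (-b)).comp (tr a b) = AlgHom.id A _ := by
    refine MvPolynomial.algHom_ext fun i => ?_
    fin_cases i
    · simp
    · simp
    · simp
  exact DFunLike.congr_fun h f

theorem tr_tr' (a b : A) (f : MvPolynomial (Fin 3) A) : tr a b (tr (-a) (-b) f) = f := by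
  have h := tr_tr (-a) (-b) f
  rwa [neg_neg, neg_neg] at h

/-- all monomials have degree at least `c` in the first two variables -/
def Low (c : ℕ) (f : MvPolynomial (Fin 3) A) : Prop :=
  ∀ s : Fin 3 →₀ ℕ, s 0 + s 1 < c → coeff s f = 0

/-- the homogeneous ideal of the point `(a : b : 1)` -/
noncomputable def pt (a b : A) : Ideal (MvPolynomial (Fin 3) A) :=
  Ideal.span ({X 0 - C a * X 2, X 1 - C b * X 2} : Set (MvPolynomial (Fin 3) A))

theorem Low.add {c : ℕ} {f g : MvPolynomial (Fin 3) A} (hf : Low c f) (hg : Low c g) :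
    Low c (f + g) := by
  intro s hs
  rw [coeff_add, hf s hs, hg s hs, add_zero]

theorem Low.X_mul {c : ℕ} {f : MvPolynomial (Fin 3) A} (hf : Low c f) (i : Fin 3) (hi : i ≠ 2) :
    Low (c + 1) (X i * f) := by
  intro s hs
  rw [coeff_X_mul']
  split_ifs with h
  · apply hf
    have h1 : s i ≠ 0 := Finsupp.mem_support_iff.1 h
    fin_cases i
    · simp at h1 ⊢
      omega
    · simp at h1 ⊢
      omega
    · exact absurd rfl hi
  · rfl

theorem Low.mul_left {c : ℕ} {f : MvPolynomial (Fin 3) A} (hf : Low c f)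
    (g : MvPolynomial (Fin 3) A) : Low c (g * f) := by
  intro s hs
  rw [coeff_mul]
  refine Finset.sum_eq_zero fun p hp => ?_
  rw [Finset.HasAntidiagonal.mem_antidiagonal] at hp
  rw [hf p.2, mul_zero]
  have h0 := DFunLike.congr_fun hp 0
  have h1 := DFunLike.congr_fun hp 1
  simp only [Finsupp.add_apply] at h0 h1
  omega

theorem low_of_mem {c : ℕ} {f : MvPolynomial (Fin 3) A}
    (hf : f ∈ (Ideal.span ({X 0, X 1} : Set (MvPolynomial (Fin 3) A))) ^ c) : Low c f := by
  induction c generalizing f with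
  | zero => intro s hs; omega
  | succ c ih =>
    rw [pow_succ'] at hf
    refine Submodule.mul_induction_on hf (fun p hp q hq => ?_) (fun p q hp hq => hp.add hq)
    obtain ⟨u, v, rfl⟩ := Ideal.mem_span_pair.1 hp
    have h1 := ih hq
    have e : (u * X 0 + v * X 1) * q = u * (X 0 * q) + v * (X 1 * q) := by ring
    rw [e]
    exact ((h1.X_mul 0 (by decide)).mul_left u).add ((h1.X_mul 1 (by decide)).mul_left v)

theorem mem_of_low {c : ℕ} {f : MvPolynomial (Fin 3) A} (hf : Low c f) :
    f ∈ (Ideal.span ({X 0, X 1} : Set (MvPolynomial (Fin 3) A))) ^ c := by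
  rw [f.as_sum]
  refine Ideal.sum_mem _ fun s hs => ?_
  have h1 : c ≤ s 0 + s 1 := by
    by_contra h
    exact (mem_support_iff.1 hs) (hf s (by omega))
  have h2 : monomial s (coeff s f) =
      C (coeff s f) * X 2 ^ (s 2) * (X 0 ^ (s 0) * X 1 ^ (s 1)) := by
    rw [monomial_eq, Finsupp.prod_fintype _ _ (by simp), Fin.prod_univ_three]
    ring
  rw [h2]
  refine Ideal.mul_mem_left _ _ (Ideal.pow_le_pow_right h1 ?_)
  rw [pow_add]
  exact Ideal.mul_mem_mul (Ideal.pow_mem_pow (Ideal.subset_span (by simp)) _)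
    (Ideal.pow_mem_pow (Ideal.subset_span (by simp)) _)

theorem mem_pt_iff {a b : A} {c : ℕ} {f : MvPolynomial (Fin 3) A} :
    f ∈ pt a b ^ c ↔ Low c (tr a b f) := by
  constructor
  · intro h
    apply low_of_mem
    have h1 := Ideal.mem_map_of_mem (tr a b) h
    rw [Ideal.map_pow] at h1
    refine Ideal.pow_right_mono ?_ c h1
    rw [pt, Ideal.map_span, Ideal.span_le]
    rintro _ ⟨g, hg, rfl⟩
    rcases hg with rfl | rfl
    · simp only [map_sub, map_mul, algHom_C, tr_X0, tr_X2]
      exact Ideal.subset_span (by simp)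
    · simp only [map_sub, map_mul, algHom_C, tr_X1, tr_X2]
      exact Ideal.subset_span (by simp)
  · intro h
    have h1 := Ideal.mem_map_of_mem (tr (-a) (-b)) (mem_of_low h)
    rw [tr_tr, Ideal.map_pow] at h1
    refine Ideal.pow_right_mono ?_ c h1
    rw [Ideal.map_span, Ideal.span_le]
    rintro _ ⟨g, hg, rfl⟩
    rcases hg with rfl | rfl
    · simp only [tr_X0, C_neg, neg_mul, ← sub_eq_add_neg]
      exact Ideal.subset_span (by simp)
    · simp only [tr_X1, C_neg, neg_mul, ← sub_eq_add_neg]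
      exact Ideal.subset_span (by simp)

/-- the grading by the degree in the first two variables -/
noncomputable def ps : MvPolynomial (Fin 3) A →ₐ[A] Polynomial (MvPolynomial (Fin 3) A) :=
  aeval ![Polynomial.C (X 0) * Polynomial.X, Polynomial.C (X 1) * Polynomial.X,
    Polynomial.C (X 2)]

theorem ps_monomial (s : Fin 3 →₀ ℕ) (a : A) :
    ps (monomial s a) = Polynomial.C (monomial s a) * Polynomial.X ^ (s 0 + s 1) := by
  rw [ps, aeval_monomial, Finsupp.prod_fintype _ _ (by simp), Fin.prod_univ_three]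
  simp only [Matrix.cons_val_zero, Matrix.cons_val_one, Matrix.cons_val]
  have h2 : monomial s a = C a * (X 0 ^ (s 0) * X 1 ^ (s 1) * X 2 ^ (s 2)) := by
    rw [monomial_eq, Finsupp.prod_fintype _ _ (by simp), Fin.prod_univ_three]
  rw [h2]
  simp only [map_mul, map_pow]
  have h3 : (algebraMap A (Polynomial (MvPolynomial (Fin 3) A))) a = Polynomial.C (C a) := rfl
  rw [h3]
  ring

theorem coeff_ps (f : MvPolynomial (Fin 3) A) (k : ℕ) (t : Fin 3 →₀ ℕ) :
    coeff t ((ps f).coeff k) = if t 0 + t 1 = k then coeff t f else 0 := by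
  induction f using MvPolynomial.induction_on' with
  | monomial s a =>
    rw [ps_monomial, Polynomial.coeff_C_mul_X_pow]
    by_cases hst : s = t
    · subst hst
      by_cases hk : k = s 0 + s 1
      · rw [if_pos hk, if_pos hk.symm]
      · rw [if_neg hk, if_neg (fun h => hk h.symm), coeff_zero]
    · have h1 : coeff t (monomial s a) = 0 := by rw [coeff_monomial, if_neg hst]
      rw [h1, ite_self]
      split_ifs
      · exact h1
      · exact coeff_zero _
  | add p q hp hq =>
    rw [map_add, Polynomial.coeff_add, coeff_add, hp, hq, coeff_add]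
    split_ifs
    · rfl
    · rw [add_zero]

theorem low_iff {c : ℕ} {f : MvPolynomial (Fin 3) A} :
    Low c f ↔ Polynomial.X ^ c ∣ ps f := by
  rw [Polynomial.X_pow_dvd_iff]
  constructor
  · intro h k hk
    ext t
    rw [coeff_ps, coeff_zero]
    split_ifs with h1
    · exact h t (by omega)
    · rfl
  · intro h s hs
    have h1 := coeff_ps f (s 0 + s 1) s
    rw [h _ hs, coeff_zero, if_pos rfl] at h1
    exact h1.symm

end ring

/-- the order of vanishing is additive -/
theorem quot_mem {A : Type*} [CommRing A] [IsDomain A] {a b : A} {c m : ℕ}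
    {f h : MvPolynomial (Fin 3) A} (hf : f ∉ pt a b ^ (c + 1)) (hfh : f * h ∈ pt a b ^ m) :
    h ∈ pt a b ^ (m - c) := by
  rw [mem_pt_iff, low_iff] at hf hfh ⊢
  rw [map_mul, map_mul] at hfh
  have hX : Prime (Polynomial.X : Polynomial (MvPolynomial (Fin 3) A)) := Polynomial.prime_X
  have h1 : emultiplicity Polynomial.X (ps (tr a b f)) ≤ c := by
    have := emultiplicity_lt_iff_not_dvd.2 hf
    exact (ENat.lt_add_one_iff (ENat.coe_ne_top c)).1 (by exact_mod_cast this)
  have h2 := pow_dvd_iff_le_emultiplicity.1 hfh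
  rw [emultiplicity_mul hX] at h2
  rw [pow_dvd_iff_le_emultiplicity]
  have h3 : (m : ℕ∞) ≤ c + emultiplicity Polynomial.X (ps (tr a b h)) :=
    h2.trans (add_le_add_left h1 _)
  have h4 : ((m - c : ℕ) : ℕ∞) = (m : ℕ∞) - c := by simp
  rw [h4]
  exact tsub_le_iff_left.2 h3

theorem mul_mem' {A : Type*} [CommRing A] {a b : A} {c c' : ℕ}
    {f h : MvPolynomial (Fin 3) A} (hf : f ∈ pt a b ^ c) (hh : h ∈ pt a b ^ c') :
    f * h ∈ pt a b ^ (c + c') := by
  rw [pow_add]; exact Ideal.mul_mem_mul hf hh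

/-- base change -/
theorem map_tr {A B : Type*} [CommRing A] [CommRing B] (φ : A →+* B) (a b : A)
    (f : MvPolynomial (Fin 3) A) : map φ (tr a b f) = tr (φ a) (φ b) (map φ f) := by
  have h : (map φ).comp (tr a b).toRingHom = (tr (φ a) (φ b)).toRingHom.comp (map φ) := by
    refine MvPolynomial.ringHom_ext (fun r => ?_) (fun i => ?_)
    · simp
    · fin_cases i
      · simp
      · simp
      · simp
  exact DFunLike.congr_fun h f

theorem mem_map {A B : Type*} [CommRing A] [CommRing B] (φ : A →+* B) {a b : A} {c : ℕ}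
    {f : MvPolynomial (Fin 3) A} (hf : f ∈ pt a b ^ c) : map φ f ∈ pt (φ a) (φ b) ^ c := by
  rw [mem_pt_iff] at hf ⊢
  intro s hs
  rw [← map_tr, coeff_map, hf s hs, map_zero]

theorem mem_map_iff {A B : Type*} [CommRing A] [CommRing B] (φ : A →+* B)
    (hφ : Function.Injective φ) {a b : A} {c : ℕ}
    {f : MvPolynomial (Fin 3) A} : map φ f ∈ pt (φ a) (φ b) ^ c ↔ f ∈ pt a b ^ c := by
  refine ⟨fun hf => ?_, mem_map φ⟩
  rw [mem_pt_iff] at hf ⊢
  intro s hs
  have := hf s hs
  rw [← map_tr, coeff_map] at this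
  exact hφ (by rw [this, map_zero])

end Pool.Agent.TH387.EX
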